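import Mathlib

/-! A Helly property of affine subspaces over `F₂`, all but one of dimension at most two. -/

set_option autoImplicit false

namespace Pool.Agent.K3h25.ET

section
variable {M ι : Type*} [AddCommGroup M] (h2 : ∀ m : M, m + m = 0) (c : ι → M → Prop) (i₀ : ι)
  (aff : ∀ i u v w, c i u → c i v → c i w → c i (u + v + w))
  (small : ∀ i, i ≠ i₀ → ∀ u v w t, c i u → c i v → c i w → c i t → u ≠ v → u ≠ w → v ≠ w →
    t = u ∨ t = v ∨ t = w ∨ t = u + v + w)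
  (tri : ∀ i j k, ∃ u, c i u ∧ c j u ∧ c k u)
  (no : ∀ u, ∃ i, ¬ c i u)

include h2 aff small tri no

/-- three points of a small set and three sets which contain two of them -/
theorem triangle (j : ι) (hj : j ≠ i₀) : ∃ x y z : M, ∃ i₁ i₂ i₃ : ι,
    x ≠ y ∧ x ≠ z ∧ y ≠ z ∧ c j x ∧ c j y ∧ c j z ∧ (¬ c i₁ x ∧ c i₁ y ∧ c i₁ z) ∧
      (¬ c i₂ y ∧ c i₂ x ∧ c i₂ z) ∧ (¬ c i₃ z ∧ c i₃ x ∧ c i₃ y) := by
  have back : ∀ a b d : M, (a + b + d) + b + d = a := by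
    intro a b d
    have : (a + b + d) + b + d = a + (b + b) + (d + d) := by abel
    rw [this, h2, h2, add_zero, add_zero]
  obtain ⟨x₀, hx0, -, -⟩ := tri j j j
  obtain ⟨q1, hq1⟩ := no x₀
  obtain ⟨y, hy0, hy1, -⟩ := tri j q1 q1
  obtain ⟨q2, hq2⟩ := no y
  obtain ⟨z, hz0, hz1, hz2⟩ := tri j q1 q2
  obtain ⟨q3, hq3⟩ := no z
  have nxy : x₀ ≠ y := fun h => hq1 (h ▸ hy1)
  have nxz : x₀ ≠ z := fun h => hq1 (h ▸ hz1)
  have nyz : y ≠ z := fun h => hq2 (h ▸ hz2)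
  have hy3 : c q3 y := by
    obtain ⟨w', a1, a2, a3⟩ := tri j q1 q3
    rcases small j hj x₀ y z w' hx0 hy0 hz0 a1 nxy nxz nyz with h | h | h | h
    · exact absurd (h ▸ a2) hq1
    · exact h ▸ a3
    · exact absurd (h ▸ a3) hq3
    · exfalso
      apply hq1
      rw [h] at a2
      have := aff q1 _ _ _ a2 hy1 hz1
      rwa [back] at this
  obtain ⟨x, hx0', hx2, hx3⟩ := tri j q2 q3
  have hx1 : ¬ c q1 x := by
    intro h1
    rcases small j hj x₀ y z x hx0 hy0 hz0 hx0' nxy nxz nyz with h | h | h | h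
    · exact hq1 (h ▸ h1)
    · exact hq2 (h ▸ hx2)
    · exact hq3 (h ▸ hx3)
    · apply hq1
      rw [h] at h1
      have := aff q1 _ _ _ h1 hy1 hz1
      rwa [back] at this
  exact ⟨x, y, z, q1, q2, q3, fun h => hq2 (h ▸ hx2), fun h => hq3 (h ▸ hx3), nyz, hx0', hy0, hz0,
    ⟨hx1, hy1, hz1⟩, ⟨hq2, hx2, hz2⟩, ⟨hq3, hx3, hy3⟩⟩

/-- each set contains two points of each triangle -/
theorem two_of_three (j : ι) (hj : j ≠ i₀) (x y z : M) (i₁ i₂ i₃ : ι)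
    (hxy : x ≠ y) (hxz : x ≠ z) (hyz : y ≠ z) (jx : c j x) (jy : c j y) (jz : c j z)
    (h₁ : ¬ c i₁ x ∧ c i₁ y ∧ c i₁ z) (h₂ : ¬ c i₂ y ∧ c i₂ x ∧ c i₂ z)
    (h₃ : ¬ c i₃ z ∧ c i₃ x ∧ c i₃ y) (l : ι) :
    (c l x ∧ c l y) ∨ (c l x ∧ c l z) ∨ (c l y ∧ c l z) := by
  have back : ∀ a b d : M, (a + b + d) + b + d = a := by
    intro a b d
    have : (a + b + d) + b + d = a + (b + b) + (d + d) := by abel
    rw [this, h2, h2, add_zero, add_zero]
  have s1 : c l y ∨ c l z := by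
    obtain ⟨u, a1, a2, a3⟩ := tri l j i₁
    rcases small j hj x y z u jx jy jz a2 hxy hxz hyz with h | h | h | h
    · exact absurd (h ▸ a3) h₁.1
    · exact Or.inl (h ▸ a1)
    · exact Or.inr (h ▸ a1)
    · exfalso
      apply h₁.1
      rw [h] at a3
      have := aff i₁ _ _ _ a3 h₁.2.1 h₁.2.2
      rwa [back] at this
  have s2 : c l x ∨ c l z := by
    obtain ⟨u, a1, a2, a3⟩ := tri l j i₂
    rcases small j hj x y z u jx jy jz a2 hxy hxz hyz with h | h | h | h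
    · exact Or.inl (h ▸ a1)
    · exact absurd (h ▸ a3) h₂.1
    · exact Or.inr (h ▸ a1)
    · exfalso
      apply h₂.1
      rw [h] at a3
      have := aff i₂ _ _ _ a3 h₂.2.1 h₂.2.2
      have e : x + y + z + x + z = y := by
        have e' : x + y + z + x + z = y + (x + x) + (z + z) := by abel
        rw [e', h2, h2, add_zero, add_zero]
      rwa [e] at this
  have s3 : c l x ∨ c l y := by
    obtain ⟨u, a1, a2, a3⟩ := tri l j i₃
    rcases small j hj x y z u jx jy jz a2 hxy hxz hyz with h | h | h | h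
    · exact Or.inl (h ▸ a1)
    · exact Or.inr (h ▸ a1)
    · exact absurd (h ▸ a3) h₃.1
    · exfalso
      apply h₃.1
      rw [h] at a3
      have := aff i₃ _ _ _ a3 h₃.2.1 h₃.2.2
      have e : x + y + z + x + y = z := by
        have e' : x + y + z + x + y = z + (x + x) + (y + y) := by abel
        rw [e', h2, h2, add_zero, add_zero]
      rwa [e] at this
  tauto

/-- a small set has two points in common with each set -/
theorem other_point (j : ι) (hj : j ≠ i₀) (l : ι) (t : M) : ∃ t', t' ≠ t ∧ c j t' ∧ c l t' := by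
  obtain ⟨x, y, z, i₁, i₂, i₃, hxy, hxz, hyz, jx, jy, jz, h₁, h₂, h₃⟩ :=
    triangle h2 c i₀ aff small tri no j hj
  rcases two_of_three h2 c i₀ aff small tri no j hj x y z i₁ i₂ i₃ hxy hxz hyz jx jy jz h₁ h₂ h₃ l
    with ⟨ha, hb⟩ | ⟨ha, hb⟩ | ⟨ha, hb⟩
  · by_cases h : x = t
    · exact ⟨y, fun e => hxy (h.trans e.symm), jy, hb⟩
    · exact ⟨x, h, jx, ha⟩
  · by_cases h : x = t
    · exact ⟨z, fun e => hxz (h.trans e.symm), jz, hb⟩
    · exact ⟨x, h, jx, ha⟩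
  · by_cases h : y = t
    · exact ⟨z, fun e => hyz (h.trans e.symm), jz, hb⟩
    · exact ⟨y, h, jy, ha⟩

/-- the triangle with two small sides -/
theorem triangle' (j : ι) (hj : j ≠ i₀) : ∃ x y z : M, ∃ i₁ i₂ : ι, i₁ ≠ i₀ ∧ i₂ ≠ i₀ ∧
    x ≠ y ∧ x ≠ z ∧ y ≠ z ∧ c j x ∧ c j y ∧ c j z ∧ (¬ c i₁ x ∧ c i₁ y ∧ c i₁ z) ∧
      (¬ c i₂ y ∧ c i₂ x ∧ c i₂ z) ∧
      ∀ l, (c l x ∧ c l y) ∨ (c l x ∧ c l z) ∨ (c l y ∧ c l z) := by
  obtain ⟨x, y, z, i₁, i₂, i₃, hxy, hxz, hyz, jx, jy, jz, h₁, h₂, h₃⟩ :=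
    triangle h2 c i₀ aff small tri no j hj
  have two := two_of_three h2 c i₀ aff small tri no j hj x y z i₁ i₂ i₃ hxy hxz hyz jx jy jz
    h₁ h₂ h₃
  by_cases e1 : i₁ = i₀
  · have e2 : i₂ ≠ i₀ := fun h => h₂.1 ((e1.trans h.symm) ▸ h₁.2.1)
    have e3 : i₃ ≠ i₀ := fun h => h₃.1 ((e1.trans h.symm) ▸ h₁.2.2)
    refine ⟨y, z, x, i₂, i₃, e2, e3, hyz, hxy.symm, hxz.symm, jy, jz, jx,
      ⟨h₂.1, h₂.2.2, h₂.2.1⟩, ⟨h₃.1, h₃.2.2, h₃.2.1⟩, fun l => ?_⟩
    have := two l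
    tauto
  · by_cases e2 : i₂ = i₀
    · have e3 : i₃ ≠ i₀ := fun h => h₃.1 ((e2.trans h.symm) ▸ h₂.2.2)
      refine ⟨x, z, y, i₁, i₃, e1, e3, hxz, hxy, hyz.symm, jx, jz, jy,
        ⟨h₁.1, h₁.2.2, h₁.2.1⟩, ⟨h₃.1, h₃.2.1, h₃.2.2⟩, fun l => ?_⟩
      have := two l
      tauto
    · exact ⟨x, y, z, i₁, i₂, e1, e2, hxy, hxz, hyz, jx, jy, jz, h₁, h₂, two⟩

end

/-- Affine subspaces over `F₂`, all but one of which have at most four elements, and any three of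
which have a common point: if there is no point common to all, then the small ones lie in an
affine subspace of dimension three. -/
theorem helly2 {M ι : Type*} [AddCommGroup M] [Module (ZMod 2) M] (c : ι → M → Prop) (i₀ : ι)
    (aff : ∀ i u v w, c i u → c i v → c i w → c i (u + v + w))
    (small : ∀ i, i ≠ i₀ → ∀ u v w t, c i u → c i v → c i w → c i t → u ≠ v → u ≠ w → v ≠ w →
      t = u ∨ t = v ∨ t = w ∨ t = u + v + w)
    (tri : ∀ i j k, ∃ u, c i u ∧ c j u ∧ c k u)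
    (no : ∀ u, ∃ i, ¬ c i u) :
    ∃ z p q r : M, ∀ l, l ≠ i₀ → ∀ v, c l v → v + z ∈ Submodule.span (ZMod 2) {p, q, r} := by
  have h2 : ∀ m : M, m + m = 0 := by
    intro m
    rw [← two_smul (ZMod 2) m]
    exact zero_smul _ m
  by_cases hj : ∃ j, j ≠ i₀
  swap
  · push Not at hj
    exact ⟨0, 0, 0, 0, fun l hl => absurd (hj l) hl⟩
  obtain ⟨j, hj⟩ := hj
  obtain ⟨x, y, z, i₁, i₂, n1, n2, hxy, hxz, hyz, jx, jy, jz, h₁, h₂, two⟩ :=
    triangle' h2 c i₀ aff small tri no j hj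
  have op := other_point h2 c i₀ aff small tri no
  obtain ⟨u, huz, hu1, hu2⟩ := op i₁ n1 i₂ z
  have huy : u ≠ y := fun h => h₂.1 (h ▸ hu2)
  have hux : u ≠ x := fun h => h₁.1 (h ▸ hu1)
  refine ⟨z, x + z, y + z, u + z, fun l hl v hv => ?_⟩
  set E := Submodule.span (ZMod 2) {x + z, y + z, u + z} with hE
  have ex : x + z ∈ E := Submodule.subset_span (by simp)
  have ey : y + z ∈ E := Submodule.subset_span (by simp)
  have eu : u + z ∈ E := Submodule.subset_span (by simp)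
  have ez : z + z ∈ E := by rw [h2]; exact E.zero_mem
  have sum3 : ∀ p q r, p + z ∈ E → q + z ∈ E → r + z ∈ E → p + q + r + z ∈ E := by
    intro p q r hp hq hr
    have h3 := E.add_mem (E.add_mem hp hq) hr
    have e1 : p + z + (q + z) + (r + z) = p + q + r + z + (z + z) := by abel
    rw [e1, h2, add_zero] at h3
    exact h3
  have four : ∀ i, i ≠ i₀ → ∀ p q r t, c i p → c i q → c i r → c i t → p ≠ q → p ≠ r → q ≠ r →
      p + z ∈ E → q + z ∈ E → r + z ∈ E → t + z ∈ E := by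
    intro i hi p q r t cp cq cr ct npq npr nqr hp hq hr
    rcases small i hi p q r t cp cq cr ct npq npr nqr with h | h | h | h
    · rw [h]; exact hp
    · rw [h]; exact hq
    · rw [h]; exact hr
    · rw [h]; exact sum3 _ _ _ hp hq hr
  have in1 : ∀ t, c i₁ t → t + z ∈ E := fun t ht =>
    four i₁ n1 y z u t h₁.2.1 h₁.2.2 hu1 ht hyz huy.symm huz.symm ey ez eu
  have in2 : ∀ t, c i₂ t → t + z ∈ E := fun t ht =>
    four i₂ n2 x z u t h₂.2.1 h₂.2.2 hu2 ht hxz hux.symm huz.symm ex ez eu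
  rcases two l with ⟨ha, hb⟩ | ⟨ha, hb⟩ | ⟨ha, hb⟩
  · obtain ⟨q, nq, q1, q2⟩ := op i₁ n1 l y
    have nx : x ≠ q := fun h => h₁.1 (h ▸ q1)
    exact four l hl x y q v ha hb q2 hv hxy nx nq.symm ex ey (in1 q q1)
  · obtain ⟨q, nq, q1, q2⟩ := op i₁ n1 l z
    have nx : x ≠ q := fun h => h₁.1 (h ▸ q1)
    exact four l hl x z q v ha hb q2 hv hxz nx nq.symm ex ez (in1 q q1)
  · obtain ⟨q, nq, q1, q2⟩ := op i₂ n2 l z
    have ny : y ≠ q := fun h => h₂.1 (h ▸ q1)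
    exact four l hl y z q v ha hb q2 hv hyz ny nq.symm ey ez (in2 q q1)

end Pool.Agent.K3h25.ET
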