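import Pool.Agent.K3h25.ET.Local

/-! The plane condition, when at most one of the four vectors has more than four values. -/

set_option autoImplicit false

namespace Pool.Agent.K3h25.ET

open Pool.Agent.W622.ETG Module Pool.Agent.TH188.ETP

section
variable {V : Type} [AddCommGroup V] [Module (ZMod 2) V] {e : V}

/-- linkage for pairs of vectors of `T` -/
def PairOn (A : Fam V) (T : Set V) : Prop :=
  ∀ p ∈ T, ∀ q ∈ T, ∀ f : Dl V, In A p f → In A q f → ∃ ω ∈ A, ω p = f ∧ ω q = f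

theorem PairOn.of {A : Fam V} (hL : Linked A) (T : Set V) : PairOn A T :=
  fun p _ q _ f hp hq => pairL hL p q f hp hq

/-- the core: three of the four value spaces are `⟨f,g⟩` -/
theorem core_on [Finite V] {A : Fam V} {a b c d : V} (hL : PairOn A {a, b, c, d})
    (hsum : a + b + c = d)
    {f g : Dl V} (hf0 : f ≠ 0) (hg0 : g ≠ 0) (hfg : g ≠ f)
    (ha : R2 A a) (hb : R2 A b) (hc : R2 A c)
    (hfa : In A a f) (hfb : In A b f) (hfc : In A c f) (hfd : In A d f)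
    (hga : In A a g) (hgb : In A b g) (hgc : In A c g) :
    ∃ ω ∈ A, ω a = f ∧ ω b = f ∧ ω c = f := by
  by_contra hno
  have hd : ∀ ω : Frm V, ω d = ω a + ω b + ω c := by
    intro ω
    rw [← hsum, map_add, map_add]
  -- the image of `A` in triples
  let ev : Frm V →ₗ[ZMod 2] Dl V × Dl V × Dl V :=
    (LinearMap.applyₗ a).prod ((LinearMap.applyₗ b).prod (LinearMap.applyₗ c))
  have hev : ∀ ω, ev ω = (ω a, ω b, ω c) := fun _ => rfl
  have hnot : ((f, f, f) : Dl V × Dl V × Dl V) ∉ Submodule.map ev A := by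
    rintro ⟨ω, hω, h⟩
    rw [hev] at h
    simp only [Prod.mk.injEq] at h
    exact hno ⟨ω, hω, h⟩
  obtain ⟨Φ, hΦ1, hΦ2⟩ := Submodule.exists_le_ker_of_notMem hnot
  let φa : Dl V → ZMod 2 := fun h => Φ (h, 0, 0)
  let φb : Dl V → ZMod 2 := fun h => Φ (0, h, 0)
  let φc : Dl V → ZMod 2 := fun h => Φ (0, 0, h)
  have hφ : ∀ u v w, Φ (u, v, w) = φa u + φb v + φc w := by
    intro u v w
    show _ = Φ _ + Φ _ + Φ _
    rw [← map_add, ← map_add]
    simp
  have hadd : ∀ u v, φa (u + v) = φa u + φa v ∧ φb (u + v) = φb u + φb v ∧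
      φc (u + v) = φc u + φc v := by
    intro u v
    refine ⟨?_, ?_, ?_⟩
    · show Φ _ = Φ _ + Φ _
      rw [← map_add]; simp
    · show Φ _ = Φ _ + Φ _
      rw [← map_add]; simp
    · show Φ _ = Φ _ + Φ _
      rw [← map_add]; simp
  have hzero : φa 0 = 0 ∧ φb 0 = 0 ∧ φc 0 = 0 := by
    refine ⟨?_, ?_, ?_⟩ <;> exact map_zero Φ
  have hA : ∀ ω ∈ A, φa (ω a) + φb (ω b) + φc (ω c) = 0 := by
    intro ω hω
    rw [← hφ]
    exact hΦ2 ⟨ω, hω, rfl⟩
  have hf : φa f + φb f + φc f = 1 := by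
    rw [← hφ]
    exact z_ne hΦ1
  -- values
  have vals : ∀ (β : Dl V), (β = 0 ∨ β = f ∨ β = g ∨ β = f + g) → ∀ (F1 F2 F3 G1 G2 G3 : ZMod 2),
      F1 = φa f → F2 = φb f → F3 = φc f → G1 = φa g → G2 = φb g → G3 = φc g →
      (φa β = 0 ∧ φb β = 0 ∧ φc β = 0) ∨ (φa β = F1 ∧ φb β = F2 ∧ φc β = F3) ∨
      (φa β = G1 ∧ φb β = G2 ∧ φc β = G3) ∨
      (φa β = F1 + G1 ∧ φb β = F2 + G2 ∧ φc β = F3 + G3) := by
    rintro β h F1 F2 F3 G1 G2 G3 rfl rfl rfl rfl rfl rfl
    rcases h with rfl | rfl | rfl | rfl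
    · exact Or.inl hzero
    · exact Or.inr (Or.inl ⟨rfl, rfl, rfl⟩)
    · exact Or.inr (Or.inr (Or.inl ⟨rfl, rfl, rfl⟩))
    · exact Or.inr (Or.inr (Or.inr (hadd f g)))
  have ra : ∀ k, In A a k → k = 0 ∨ k = f ∨ k = g ∨ k = f + g :=
    fun k hk => ha.mem hfa hga hk hf0 hg0 hfg
  have rb : ∀ k, In A b k → k = 0 ∨ k = f ∨ k = g ∨ k = f + g :=
    fun k hk => hb.mem hfb hgb hk hf0 hg0 hfg
  have rc : ∀ k, In A c k → k = 0 ∨ k = f ∨ k = g ∨ k = f + g :=
    fun k hk => hc.mem hfc hgc hk hf0 hg0 hfg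
  -- linked pairs
  have ma : a ∈ ({a, b, c, d} : Set V) := by simp
  have mb : b ∈ ({a, b, c, d} : Set V) := by simp
  have mc : c ∈ ({a, b, c, d} : Set V) := by simp
  have md : d ∈ ({a, b, c, d} : Set V) := by simp
  -- relations from the pairs among `a, b, c`
  have relab : ∀ h, In A a h → In A b h → ∃ β, In A c β ∧ In A d β ∧ φa h + φb h + φc β = 0 := by
    intro h h1 h2
    obtain ⟨ω, hω, e1, e2⟩ := hL a ma b mb h h1 h2
    refine ⟨ω c, ⟨ω, hω, rfl⟩, ⟨ω, hω, ?_⟩, ?_⟩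
    · rw [hd, e1, e2, vadd, zero_add]
    · have := hA ω hω
      rwa [e1, e2] at this
  have relac : ∀ h, In A a h → In A c h → ∃ β, In A b β ∧ In A d β ∧ φa h + φb β + φc h = 0 := by
    intro h h1 h2
    obtain ⟨ω, hω, e1, e2⟩ := hL a ma c mc h h1 h2
    refine ⟨ω b, ⟨ω, hω, rfl⟩, ⟨ω, hω, ?_⟩, ?_⟩
    · rw [hd, e1, e2, add_comm h, add_assoc, vadd, add_zero]
    · have := hA ω hω
      rwa [e1, e2] at this
  have relbc : ∀ h, In A b h → In A c h → ∃ β, In A a β ∧ In A d β ∧ φa β + φb h + φc h = 0 := by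
    intro h h1 h2
    obtain ⟨ω, hω, e1, e2⟩ := hL b mb c mc h h1 h2
    refine ⟨ω a, ⟨ω, hω, rfl⟩, ⟨ω, hω, ?_⟩, ?_⟩
    · rw [hd, e1, e2, add_assoc, vadd, add_zero]
    · have := hA ω hω
      rwa [e1, e2] at this
  -- relations from the pairs with `d`
  have relcd : ∀ h, In A c h → In A d h → ∃ β, In A a β ∧ φa β + φb β + φc h = 0 := by
    intro h h1 h2
    obtain ⟨ω, hω, e1, e2⟩ := hL c mc d md h h1 h2
    have e3 : ω a = ω b := by
      have := hd ω
      rw [e1, e2] at this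
      have h4 : ω a + ω b = 0 := by
        have h5 : h + h = ω a + ω b + h + h := by rw [← this]
        rw [vadd, add_assoc, vadd, add_zero] at h5
        exact h5.symm
      exact Pool.Agent.W622.ETC.add_eq_zero'.1 h4
    refine ⟨ω a, ⟨ω, hω, rfl⟩, ?_⟩
    have := hA ω hω
    rwa [e1, ← e3] at this
  have relbd : ∀ h, In A b h → In A d h → ∃ β, In A a β ∧ φa β + φb h + φc β = 0 := by
    intro h h1 h2
    obtain ⟨ω, hω, e1, e2⟩ := hL b mb d md h h1 h2
    have e3 : ω a = ω c := by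
      have := hd ω
      rw [e1, e2] at this
      have h4 : ω a + ω c = 0 := by
        have h5 : h + h = ω a + h + ω c + h := by rw [← this]
        rw [vadd] at h5
        have h6 : ω a + h + ω c + h = ω a + ω c + (h + h) := by abel
        rw [h6, vadd, add_zero] at h5
        exact h5.symm
      exact Pool.Agent.W622.ETC.add_eq_zero'.1 h4
    refine ⟨ω a, ⟨ω, hω, rfl⟩, ?_⟩
    have := hA ω hω
    rwa [e1, ← e3] at this
  have relad : ∀ h, In A a h → In A d h → ∃ β, In A b β ∧ φa h + φb β + φc β = 0 := by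
    intro h h1 h2
    obtain ⟨ω, hω, e1, e2⟩ := hL a ma d md h h1 h2
    have e3 : ω b = ω c := by
      have := hd ω
      rw [e1, e2] at this
      have h4 : ω b + ω c = 0 := by
        have h5 : h + h = h + ω b + ω c + h := by rw [← this]
        rw [vadd] at h5
        have h6 : h + ω b + ω c + h = ω b + ω c + (h + h) := by abel
        rw [h6, vadd, add_zero] at h5
        exact h5.symm
      exact Pool.Agent.W622.ETC.add_eq_zero'.1 h4
    refine ⟨ω b, ⟨ω, hω, rfl⟩, ?_⟩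
    have := hA ω hω
    rwa [e1, ← e3] at this
  generalize hF1 : φa f = F1 at hf
  generalize hF2 : φb f = F2 at hf
  generalize hF3 : φc f = F3 at hf
  have vals' := fun β hβ => vals β hβ F1 F2 F3 (φa g) (φb g) (φc g) hF1.symm hF2.symm hF3.symm
    rfl rfl rfl
  generalize hG1 : φa g = G1 at vals'
  generalize hG2 : φb g = G2 at vals'
  generalize hG3 : φc g = G3 at vals'
  by_cases hgd : In A d g
  · -- all value spaces are `⟨f,g⟩`
    have c1 : (F3 = 0 ∧ G3 = 0) → F1 + F2 = 0 := by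
      rintro ⟨h1, h2⟩
      obtain ⟨β, hβ, -, h⟩ := relab f hfa hfb
      rw [hF1, hF2] at h
      rcases vals' β (rc β hβ) with v | v | v | v <;> rw [v.2.2] at h <;> simp_all
    have c2 : (F3 = 0 ∧ G3 = 0) → G1 + G2 = 0 := by
      rintro ⟨h1, h2⟩
      obtain ⟨β, hβ, -, h⟩ := relab g hga hgb
      rw [hG1, hG2] at h
      rcases vals' β (rc β hβ) with v | v | v | v <;> rw [v.2.2] at h <;> simp_all
    have c3 : (F2 = 0 ∧ G2 = 0) → F1 + F3 = 0 := by
      rintro ⟨h1, h2⟩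
      obtain ⟨β, hβ, -, h⟩ := relac f hfa hfc
      rw [hF1, hF3] at h
      rcases vals' β (rb β hβ) with v | v | v | v <;> rw [v.2.1] at h <;> simp_all
    have c4 : (F2 = 0 ∧ G2 = 0) → G1 + G3 = 0 := by
      rintro ⟨h1, h2⟩
      obtain ⟨β, hβ, -, h⟩ := relac g hga hgc
      rw [hG1, hG3] at h
      rcases vals' β (rb β hβ) with v | v | v | v <;> rw [v.2.1] at h <;> simp_all
    have c5 : (F1 = 0 ∧ G1 = 0) → F2 + F3 = 0 := by
      rintro ⟨h1, h2⟩
      obtain ⟨β, hβ, -, h⟩ := relbc f hfb hfc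
      rw [hF2, hF3] at h
      rcases vals' β (ra β hβ) with v | v | v | v <;> rw [v.1] at h <;> simp_all
    have c6 : (F1 = 0 ∧ G1 = 0) → G2 + G3 = 0 := by
      rintro ⟨h1, h2⟩
      obtain ⟨β, hβ, -, h⟩ := relbc g hgb hgc
      rw [hG2, hG3] at h
      rcases vals' β (ra β hβ) with v | v | v | v <;> rw [v.1] at h <;> simp_all
    have c7 : (F1 + F2 = 0 ∧ G1 + G2 = 0) → F3 = 0 := by
      rintro ⟨h1, h2⟩
      obtain ⟨β, hβ, h⟩ := relcd f hfc hfd
      rw [hF3] at h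
      refine key1 _ _ _ F1 F2 G1 G2 h h1 h2 ?_
      rcases vals' β (ra β hβ) with v | v | v | v
      · exact Or.inl ⟨v.1, v.2.1⟩
      · exact Or.inr (Or.inl ⟨v.1, v.2.1⟩)
      · exact Or.inr (Or.inr (Or.inl ⟨v.1, v.2.1⟩))
      · exact Or.inr (Or.inr (Or.inr ⟨v.1, v.2.1⟩))
    have c8 : (F1 + F2 = 0 ∧ G1 + G2 = 0) → G3 = 0 := by
      rintro ⟨h1, h2⟩
      obtain ⟨β, hβ, h⟩ := relcd g hgc hgd
      rw [hG3] at h
      refine key1 _ _ _ F1 F2 G1 G2 h h1 h2 ?_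
      rcases vals' β (ra β hβ) with v | v | v | v
      · exact Or.inl ⟨v.1, v.2.1⟩
      · exact Or.inr (Or.inl ⟨v.1, v.2.1⟩)
      · exact Or.inr (Or.inr (Or.inl ⟨v.1, v.2.1⟩))
      · exact Or.inr (Or.inr (Or.inr ⟨v.1, v.2.1⟩))
    have c9 : (F1 + F3 = 0 ∧ G1 + G3 = 0) → F2 = 0 := by
      rintro ⟨h1, h2⟩
      obtain ⟨β, hβ, h⟩ := relbd f hfb hfd
      rw [hF2] at h
      have h' : φa β + φc β + F2 = 0 := by rw [← h]; ring
      refine key1 _ _ _ F1 F3 G1 G3 h' h1 h2 ?_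
      rcases vals' β (ra β hβ) with v | v | v | v
      · exact Or.inl ⟨v.1, v.2.2⟩
      · exact Or.inr (Or.inl ⟨v.1, v.2.2⟩)
      · exact Or.inr (Or.inr (Or.inl ⟨v.1, v.2.2⟩))
      · exact Or.inr (Or.inr (Or.inr ⟨v.1, v.2.2⟩))
    have c10 : (F1 + F3 = 0 ∧ G1 + G3 = 0) → G2 = 0 := by
      rintro ⟨h1, h2⟩
      obtain ⟨β, hβ, h⟩ := relbd g hgb hgd
      rw [hG2] at h
      have h' : φa β + φc β + G2 = 0 := by rw [← h]; ring
      refine key1 _ _ _ F1 F3 G1 G3 h' h1 h2 ?_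
      rcases vals' β (ra β hβ) with v | v | v | v
      · exact Or.inl ⟨v.1, v.2.2⟩
      · exact Or.inr (Or.inl ⟨v.1, v.2.2⟩)
      · exact Or.inr (Or.inr (Or.inl ⟨v.1, v.2.2⟩))
      · exact Or.inr (Or.inr (Or.inr ⟨v.1, v.2.2⟩))
    have c11 : (F2 + F3 = 0 ∧ G2 + G3 = 0) → F1 = 0 := by
      rintro ⟨h1, h2⟩
      obtain ⟨β, hβ, h⟩ := relad f hfa hfd
      rw [hF1] at h
      have h' : φb β + φc β + F1 = 0 := by rw [← h]; ring
      refine key1 _ _ _ F2 F3 G2 G3 h' h1 h2 ?_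
      rcases vals' β (rb β hβ) with v | v | v | v
      · exact Or.inl ⟨v.2.1, v.2.2⟩
      · exact Or.inr (Or.inl ⟨v.2.1, v.2.2⟩)
      · exact Or.inr (Or.inr (Or.inl ⟨v.2.1, v.2.2⟩))
      · exact Or.inr (Or.inr (Or.inr ⟨v.2.1, v.2.2⟩))
    have c12 : (F2 + F3 = 0 ∧ G2 + G3 = 0) → G1 = 0 := by
      rintro ⟨h1, h2⟩
      obtain ⟨β, hβ, h⟩ := relad g hga hgd
      rw [hG1] at h
      have h' : φb β + φc β + G1 = 0 := by rw [← h]; ring
      refine key1 _ _ _ F2 F3 G2 G3 h' h1 h2 ?_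
      rcases vals' β (rb β hβ) with v | v | v | v
      · exact Or.inl ⟨v.2.1, v.2.2⟩
      · exact Or.inr (Or.inl ⟨v.2.1, v.2.2⟩)
      · exact Or.inr (Or.inr (Or.inl ⟨v.2.1, v.2.2⟩))
      · exact Or.inr (Or.inr (Or.inr ⟨v.2.1, v.2.2⟩))
    exact key3 F1 F2 F3 G1 G2 G3 hf ⟨fun h => ⟨c1 h, c2 h⟩, fun h => ⟨c7 h, c8 h⟩⟩
      ⟨fun h => ⟨c3 h, c4 h⟩, fun h => ⟨c9 h, c10 h⟩⟩
      ⟨fun h => ⟨c5 h, c6 h⟩, fun h => ⟨c11 h, c12 h⟩⟩
  · -- the value space at `d` is `⟨f⟩`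
    have rd : ∀ k, In A d k → k = 0 ∨ k = f := by
      intro k hk
      obtain ⟨ω, hω, h⟩ := hk
      have h1 := ra _ ⟨ω, hω, rfl⟩
      have h2 := rb _ ⟨ω, hω, rfl⟩
      have h3 := rc _ ⟨ω, hω, rfl⟩
      have h4 : k = 0 ∨ k = f ∨ k = g ∨ k = f + g := by
        rw [← h, hd]
        have cl : ∀ u v : Dl V, (u = 0 ∨ u = f ∨ u = g ∨ u = f + g) →
            (v = 0 ∨ v = f ∨ v = g ∨ v = f + g) →
            (u + v = 0 ∨ u + v = f ∨ u + v = g ∨ u + v = f + g) := by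
          have hff : f + f = 0 := vadd f
          have hgg : g + g = 0 := vadd g
          have a1 : f + (f + g) = g := by rw [← add_assoc, hff, zero_add]
          have a2 : g + (f + g) = f := by rw [add_comm f, ← add_assoc, hgg, zero_add]
          have a3 : (f + g) + (f + g) = 0 := vadd _
          have a4 : (f + g) + f = g := by rw [add_comm, a1]
          have a5 : (f + g) + g = f := by rw [add_comm, a2]
          have a6 : g + f = f + g := add_comm _ _
          intro u v hu hv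
          rcases hu with hu | hu | hu | hu <;> rcases hv with hv | hv | hv | hv <;> rw [hu, hv] <;>
            simp only [hff, hgg, a1, a2, a3, a4, a5, a6, add_zero, zero_add, true_or, or_true]
        exact cl _ _ (cl _ _ h1 h2) h3
      rcases h4 with h4 | h4 | h4 | h4
      · exact Or.inl h4
      · exact Or.inr h4
      · exact absurd (h4 ▸ ⟨ω, hω, h⟩) hgd
      · exfalso
        apply hgd
        have h5 : In A d (f + g) := h4 ▸ ⟨ω, hω, h⟩
        have h6 := hfd.add h5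
        rwa [← add_assoc, vadd, zero_add] at h6
    have d1 : F1 + F2 = 0 := by
      obtain ⟨β, -, hβ, h⟩ := relab f hfa hfb
      rw [hF1, hF2] at h
      rcases rd β hβ with rfl | rfl
      · rw [hzero.2.2, add_zero] at h
        exact h
      · rw [hF3, hf] at h
        exact absurd h one_ne_zero
    have d2 : F1 + F3 = 0 := by
      obtain ⟨β, -, hβ, h⟩ := relac f hfa hfc
      rw [hF1, hF3] at h
      rcases rd β hβ with rfl | rfl
      · rw [hzero.2.1, add_zero] at h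
        exact h
      · rw [hF2, hf] at h
        exact absurd h one_ne_zero
    have d3 : F2 + F3 = 0 := by
      obtain ⟨β, -, hβ, h⟩ := relbc f hfb hfc
      rw [hF2, hF3] at h
      rcases rd β hβ with rfl | rfl
      · rw [hzero.1, zero_add] at h
        exact h
      · rw [hF1, hf] at h
        exact absurd h one_ne_zero
    -- the values at `g` differ pairwise
    have g1 : G1 + G2 = 1 := by
      obtain ⟨β, hβ, h⟩ := relcd f hfc hfd
      rw [hF3] at h
      refine key2 _ _ F1 F2 F3 G1 G2 hf d1 h ?_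
      rcases vals' β (ra β hβ) with v | v | v | v
      · exact Or.inl ⟨v.1, v.2.1⟩
      · exact Or.inr (Or.inl ⟨v.1, v.2.1⟩)
      · exact Or.inr (Or.inr (Or.inl ⟨v.1, v.2.1⟩))
      · exact Or.inr (Or.inr (Or.inr ⟨v.1, v.2.1⟩))
    have g2 : G1 + G3 = 1 := by
      obtain ⟨β, hβ, h⟩ := relbd f hfb hfd
      rw [hF2] at h
      have h' : φa β + φc β + F2 = 0 := by rw [← h]; ring
      refine key2 _ _ F1 F3 F2 G1 G3 (by rw [← hf]; ring) d2 h' ?_
      rcases vals' β (ra β hβ) with v | v | v | v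
      · exact Or.inl ⟨v.1, v.2.2⟩
      · exact Or.inr (Or.inl ⟨v.1, v.2.2⟩)
      · exact Or.inr (Or.inr (Or.inl ⟨v.1, v.2.2⟩))
      · exact Or.inr (Or.inr (Or.inr ⟨v.1, v.2.2⟩))
    have g3 : G2 + G3 = 1 := by
      obtain ⟨β, hβ, h⟩ := relad f hfa hfd
      rw [hF1] at h
      have h' : φb β + φc β + F1 = 0 := by rw [← h]; ring
      refine key2 _ _ F2 F3 F1 G2 G3 (by rw [← hf]; ring) d3 h' ?_
      rcases vals' β (rb β hβ) with v | v | v | v
      · exact Or.inl ⟨v.2.1, v.2.2⟩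
      · exact Or.inr (Or.inl ⟨v.2.1, v.2.2⟩)
      · exact Or.inr (Or.inr (Or.inl ⟨v.2.1, v.2.2⟩))
      · exact Or.inr (Or.inr (Or.inr ⟨v.2.1, v.2.2⟩))
    exact key4 G1 G2 G3 g1 g2 g3

/-- two of the three vectors with at most four values have a common value `g ≠ 0, f` -/
theorem three_aux [Finite V] {A : Fam V} {x y z w : V} (hL : PairOn A {x, y, z, w})
    (hsum : x + y + z = w) (hx : R2 A x) (hy : R2 A y) (hz : R2 A z) {f g : Dl V}
    (hf0 : f ≠ 0) (hg0 : g ≠ 0) (hgf : g ≠ f)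
    (fx : In A x f) (fy : In A y f) (fz : In A z f) (fw : In A w f)
    (gx : In A x g) (gy : In A y g) : ∃ ω ∈ A, ω x = f ∧ ω y = f ∧ ω z = f := by
  by_contra hno'
  have hno : ∀ ω ∈ A, ω x = f → ω y = f → ω z = f → False :=
    fun ω hω h1 h2 h3 => hno' ⟨ω, hω, h1, h2, h3⟩
  have mx : x ∈ ({x, y, z, w} : Set V) := by simp
  have my : y ∈ ({x, y, z, w} : Set V) := by simp
  have mz : z ∈ ({x, y, z, w} : Set V) := by simp
  have mw : w ∈ ({x, y, z, w} : Set V) := by simp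
  have gz : ¬ In A z g := fun h => hno' (core_on hL hsum hf0 hg0 hgf hx hy hz fx fy fz fw gx gy h)
  have gz' : ¬ In A z (f + g) := by
    intro h
    have h1 := fz.add h
    rw [← add_assoc, vadd, zero_add] at h1
    exact gz h1
  have hw : ∀ ω : Frm V, ω w = ω x + ω y + ω z := fun ω => by rw [← hsum, map_add, map_add]
  have canc : ∀ p q : Dl V, f = p + q + f → p = q := by
    intro p q h
    have h1 : f + f = p + q + f + f := by rw [← h]
    rw [vadd, add_assoc, vadd, add_zero] at h1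
    exact Pool.Agent.W622.ETC.add_eq_zero'.1 h1.symm
  -- `ω₁ = (f, 0, 0)`
  obtain ⟨ω₁, h1, a1, b1, c1⟩ : ∃ ω ∈ A, ω x = f ∧ ω y = 0 ∧ ω z = 0 := by
    obtain ⟨ω, hω, e1, e2⟩ := hL x mx w mw f fx fw
    have e3 : ω y = ω z := by
      apply canc
      have := hw ω
      rw [e1, e2] at this
      rw [add_comm (ω y + ω z) f, ← add_assoc]
      exact this
    rcases hy.mem fy gy ⟨ω, hω, rfl⟩ hf0 hg0 hgf with h | h | h | h
    · exact ⟨ω, hω, e1, h, e3 ▸ h⟩
    · exact absurd (hno ω hω e1 h (e3 ▸ h)) id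
    · exact absurd ⟨ω, hω, e3 ▸ h⟩ gz
    · exact absurd ⟨ω, hω, e3 ▸ h⟩ gz'
  -- `ω₂ = (0, f, 0)`
  obtain ⟨ω₂, h2, a2, b2, c2⟩ : ∃ ω ∈ A, ω x = 0 ∧ ω y = f ∧ ω z = 0 := by
    obtain ⟨ω, hω, e1, e2⟩ := hL y my w mw f fy fw
    have e3 : ω x = ω z := by
      apply canc
      have := hw ω
      rw [e1, e2] at this
      rw [add_assoc, add_comm (ω z) f, ← add_assoc]
      exact this
    rcases hx.mem fx gx ⟨ω, hω, rfl⟩ hf0 hg0 hgf with h | h | h | h
    · exact ⟨ω, hω, h, e1, e3 ▸ h⟩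
    · exact absurd (hno ω hω h e1 (e3 ▸ h)) id
    · exact absurd ⟨ω, hω, e3 ▸ h⟩ gz
    · exact absurd ⟨ω, hω, e3 ▸ h⟩ gz'
  -- adding these
  have fix : ∀ ω ∈ A, (ω x = 0 ∨ ω x = f) → (ω y = 0 ∨ ω y = f) → ω z = f → False := by
    intro ω hω h3 h4 h5
    rcases h3 with h3 | h3 <;> rcases h4 with h4 | h4
    · refine hno (ω + ω₁ + ω₂) (A.add_mem (A.add_mem hω h1) h2) ?_ ?_ ?_
      · rw [LinearMap.add_apply, LinearMap.add_apply, h3, a1, a2, zero_add, add_zero]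
      · rw [LinearMap.add_apply, LinearMap.add_apply, h4, b1, b2, zero_add, zero_add]
      · rw [LinearMap.add_apply, LinearMap.add_apply, h5, c1, c2, add_zero, add_zero]
    · refine hno (ω + ω₁) (A.add_mem hω h1) ?_ ?_ ?_
      · rw [LinearMap.add_apply, h3, a1, zero_add]
      · rw [LinearMap.add_apply, h4, b1, add_zero]
      · rw [LinearMap.add_apply, h5, c1, add_zero]
    · refine hno (ω + ω₂) (A.add_mem hω h2) ?_ ?_ ?_
      · rw [LinearMap.add_apply, h3, a2, add_zero]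
      · rw [LinearMap.add_apply, h4, b2, zero_add]
      · rw [LinearMap.add_apply, h5, c2, add_zero]
    · exact hno ω hω h3 h4 h5
  -- `ω₃ = (s, s, f)`
  obtain ⟨ω₃, h3, b3, c3⟩ := hL z mz w mw f fz fw
  have e3 : ω₃ x = ω₃ y := by
    apply canc
    have := hw ω₃
    rw [b3, c3] at this
    exact this
  -- `ω₄ = (f, s, f)`
  obtain ⟨ω₄, h4, a4, c4⟩ := hL x mx z mz f fx fz
  -- `ω₅ = (s, f, f)`
  obtain ⟨ω₅, h5, b5, c5⟩ := hL y my z mz f fy fz
  have v3 : ω₃ x = g ∨ ω₃ x = f + g := by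
    rcases hx.mem fx gx ⟨ω₃, h3, rfl⟩ hf0 hg0 hgf with h | h | h | h
    · exact absurd (fix ω₃ h3 (Or.inl h) (Or.inl (e3 ▸ h)) b3) id
    · exact absurd (fix ω₃ h3 (Or.inr h) (Or.inr (e3 ▸ h)) b3) id
    · exact Or.inl h
    · exact Or.inr h
  have v4 : ω₄ y = g ∨ ω₄ y = f + g := by
    rcases hy.mem fy gy ⟨ω₄, h4, rfl⟩ hf0 hg0 hgf with h | h | h | h
    · exact absurd (fix ω₄ h4 (Or.inr a4) (Or.inl h) c4) id
    · exact absurd (fix ω₄ h4 (Or.inr a4) (Or.inr h) c4) id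
    · exact Or.inl h
    · exact Or.inr h
  have v5 : ω₅ x = g ∨ ω₅ x = f + g := by
    rcases hx.mem fx gx ⟨ω₅, h5, rfl⟩ hf0 hg0 hgf with h | h | h | h
    · exact absurd (fix ω₅ h5 (Or.inl h) (Or.inr b5) c5) id
    · exact absurd (fix ω₅ h5 (Or.inr h) (Or.inr b5) c5) id
    · exact Or.inl h
    · exact Or.inr h
  have key : ∀ s t : Dl V, (s = g ∨ s = f + g) → (t = g ∨ t = f + g) →
      (s + f + t = 0 ∨ s + f + t = f) := by
    intro s t hs ht
    rcases hs with hs | hs <;> rcases ht with ht | ht <;> rw [hs, ht]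
    · right
      have : g + f + g = g + g + f := by abel
      rw [this, vadd, zero_add]
    · left
      have : g + f + (f + g) = (g + g) + (f + f) := by abel
      rw [this, vadd, vadd, add_zero]
    · left
      have : f + g + f + g = (g + g) + (f + f) := by abel
      rw [this, vadd, vadd, add_zero]
    · right
      have : f + g + f + (f + g) = (f + f) + (g + g) + f := by abel
      rw [this, vadd, vadd, add_zero, zero_add]
  refine fix (ω₃ + ω₄ + ω₅) (A.add_mem (A.add_mem h3 h4) h5) ?_ ?_ ?_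
  · rw [LinearMap.add_apply, LinearMap.add_apply, a4]
    exact key _ _ v3 v5
  · rw [LinearMap.add_apply, LinearMap.add_apply, b5, ← e3]
    have := key _ _ v3 v4
    have e4 : ω₃ x + ω₄ y + f = ω₃ x + f + ω₄ y := by abel
    rw [e4]
    exact this
  · rw [LinearMap.add_apply, LinearMap.add_apply, b3, c4, c5, vadd, zero_add]

/-- the plane condition, if three of the four vectors have at most four values -/
theorem plane_three [Finite V] {A : Fam V} {x y z w : V} (hL : PairOn A {x, y, z, w})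
    (hsum : x + y + z = w) (hx : R2 A x) (hy : R2 A y) (hz : R2 A z) {f : Dl V}
    (fx : In A x f) (fy : In A y f) (fz : In A z f) (fw : In A w f) :
    ∃ ω ∈ A, ω x = f ∧ ω y = f ∧ ω z = f := by
  by_cases hf0 : f = 0
  · exact ⟨0, A.zero_mem, by simp [hf0]⟩
  by_contra hno'
  have hno : ∀ ω ∈ A, ω x = f → ω y = f → ω z = f → False :=
    fun ω hω h1 h2 h3 => hno' ⟨ω, hω, h1, h2, h3⟩
  have mx : x ∈ ({x, y, z, w} : Set V) := by simp
  have my : y ∈ ({x, y, z, w} : Set V) := by simp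
  have mz : z ∈ ({x, y, z, w} : Set V) := by simp
  have mw : w ∈ ({x, y, z, w} : Set V) := by simp
  have hw : ∀ ω : Frm V, ω w = ω x + ω y + ω z := fun ω => by rw [← hsum, map_add, map_add]
  have canc : ∀ p q : Dl V, f = p + q + f → p = q := by
    intro p q h
    have h1 : f + f = p + q + f + f := by rw [← h]
    rw [vadd, add_assoc, vadd, add_zero] at h1
    exact Pool.Agent.W622.ETC.add_eq_zero'.1 h1.symm
  obtain ⟨ω₁, h1, a1, d1⟩ := hL x mx w mw f fx fw
  obtain ⟨ω₂, h2, b2, d2⟩ := hL y my w mw f fy fw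
  obtain ⟨ω₃, h3, c3, d3⟩ := hL z mz w mw f fz fw
  have e1 : ω₁ y = ω₁ z := by
    apply canc
    have := hw ω₁
    rw [a1, d1] at this
    rw [add_comm (ω₁ y + ω₁ z) f, ← add_assoc]
    exact this
  have e2 : ω₂ x = ω₂ z := by
    apply canc
    have := hw ω₂
    rw [b2, d2] at this
    rw [add_assoc, add_comm (ω₂ z) f, ← add_assoc]
    exact this
  have e3 : ω₃ x = ω₃ y := by
    apply canc
    have := hw ω₃
    rw [c3, d3] at this
    exact this
  have n1 : ω₁ y = 0 := by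
    by_contra h0
    have hL' : PairOn A {y, z, x, w} := by
      have : ({y, z, x, w} : Set V) = {x, y, z, w} := by
        ext v; simp only [Set.mem_insert_iff, Set.mem_singleton_iff]; tauto
      rw [this]; exact hL
    obtain ⟨ω, hω, o1, o2, o3⟩ := three_aux hL' (by rw [← hsum]; abel) hy hz hx hf0 h0
      (fun h => hno ω₁ h1 a1 h (e1 ▸ h)) fy fz fx fw ⟨ω₁, h1, rfl⟩ ⟨ω₁, h1, e1.symm⟩
    exact hno ω hω o3 o1 o2
  have n2 : ω₂ x = 0 := by
    by_contra h0
    have hL' : PairOn A {x, z, y, w} := by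
      have : ({x, z, y, w} : Set V) = {x, y, z, w} := by
        ext v; simp only [Set.mem_insert_iff, Set.mem_singleton_iff]; tauto
      rw [this]; exact hL
    obtain ⟨ω, hω, o1, o2, o3⟩ := three_aux hL' (by rw [← hsum]; abel) hx hz hy hf0 h0
      (fun h => hno ω₂ h2 h b2 (e2 ▸ h)) fx fz fy fw ⟨ω₂, h2, rfl⟩ ⟨ω₂, h2, e2.symm⟩
    exact hno ω hω o1 o3 o2
  have n3 : ω₃ x = 0 := by
    by_contra h0
    obtain ⟨ω, hω, o1, o2, o3⟩ := three_aux hL hsum hx hy hz hf0 h0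
      (fun h => hno ω₃ h3 h (e3 ▸ h) c3) fx fy fz fw ⟨ω₃, h3, rfl⟩ ⟨ω₃, h3, e3.symm⟩
    exact hno ω hω o1 o2 o3
  refine hno (ω₁ + ω₂ + ω₃) (A.add_mem (A.add_mem h1 h2) h3) ?_ ?_ ?_
  · rw [LinearMap.add_apply, LinearMap.add_apply, a1, n2, n3, add_zero, add_zero]
  · rw [LinearMap.add_apply, LinearMap.add_apply, n1, b2, ← e3, n3, zero_add, add_zero]
  · rw [LinearMap.add_apply, LinearMap.add_apply, ← e1, n1, ← e2, n2, c3, zero_add, zero_add]

end

end Pool.Agent.K3h25.ET
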