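import Pool.Agent.K3h25.ET.Main
import Pool.Agent.K3h25.ET.Plane2
import Pool.Agent.K3h25.ET.Helly2

/-! Cosets of a subspace of dimension three on which a linked family is not local-global. -/

set_option autoImplicit false

namespace Pool.Agent.K3h25.ET

open Pool.Agent.W622.ETG Module Pool.Agent.TH188.ETP

section
variable {V : Type} [AddCommGroup V] [Module (ZMod 2) V] {e : V}

/-- extension by one value -/
theorem glue2 [Finite V] {B : Fam V} (hB : EFam e B) (hL : Linked B) {x y z g : V}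
    (hR : ∀ p ∈ Submodule.span (ZMod 2) {x, y, z}, p ≠ 0 → R2 B (g + p)) {F : Frm V}
    (hF : ∀ p ∈ Submodule.span (ZMod 2) {x, y, z}, In B p (F p)) {τ : Dl V}
    (hτ : ∀ p ∈ Submodule.span (ZMod 2) {x, y, z}, In B (g + p) (τ + F p)) :
    ∃ ω ∈ B, ∀ p ∈ Submodule.span (ZMod 2) {x, y, z}, ω p = F p := by
  set P := Submodule.span (ZMod 2) {x, y, z} with hPdef
  have hx : x ∈ P := Submodule.subset_span (by simp)
  have hy : y ∈ P := Submodule.subset_span (by simp)
  have hz : z ∈ P := Submodule.subset_span (by simp)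
  have hLT : LinkedOn B ⊤ := LinkedOn.of hL ⊤
  obtain ⟨m, hm, m0⟩ := hτ 0 P.zero_mem
  rw [map_zero, add_zero, add_zero] at m0
  set B0 : Fam V := res B (ann g) with hB0
  have mem0 : ∀ {ω}, ω ∈ B0 ↔ ω ∈ B ∧ ω g = 0 := fun {ω} => mem_res_ann hB
  -- `B0` is linked on `P`
  have hL0 : LinkedOn B0 P := by
    rintro p hp q hq f ⟨ω, hω, o1⟩ ⟨η, hη, o2⟩
    obtain ⟨hωB, hωg⟩ := mem0.1 hω
    obtain ⟨hηB, hηg⟩ := mem0.1 hη
    by_cases hp0 : p = 0
    · have hf : f = 0 := by rw [← o1, hp0, map_zero]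
      exact ⟨0, B0.zero_mem, by rw [hf]; rfl, by rw [hf]; rfl⟩
    by_cases hq0 : q = 0
    · have hf : f = 0 := by rw [← o2, hq0, map_zero]
      exact ⟨0, B0.zero_mem, by rw [hf]; rfl, by rw [hf]; rfl⟩
    by_cases hpq : p = q
    · exact ⟨ω, hω, o1, hpq ▸ o1⟩
    have hpq0 : p + q ≠ 0 := fun h => hpq (Pool.Agent.W622.ETC.add_eq_zero'.1 h)
    obtain ⟨ζ, hζ, h1, h2⟩ := pairL hL p q f ⟨ω, hωB, o1⟩ ⟨η, hηB, o2⟩
    have b1 : In B (g + p) (ζ g) := by
      refine ⟨ζ + ω, B.add_mem hζ hωB, ?_⟩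
      rw [LinearMap.add_apply, map_add, map_add, h1, hωg, o1, zero_add, add_assoc, vadd, add_zero]
    have b2 : In B (g + q) (ζ g) := by
      refine ⟨ζ + η, B.add_mem hζ hηB, ?_⟩
      rw [LinearMap.add_apply, map_add, map_add, h2, hηg, o2, zero_add, add_assoc, vadd, add_zero]
    have b3 : In B (g + (p + q)) (ζ g) := by
      refine ⟨ζ, hζ, ?_⟩
      rw [map_add, map_add, h1, h2, vadd, add_zero]
    have hsum : g + p + (g + q) + (g + (p + q)) = g := by
      have : g + p + (g + q) + (g + (p + q)) = g + (g + g) + (p + p) + (q + q) := by abel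
      rw [this, vadd, vadd, vadd, add_zero, add_zero, add_zero]
    obtain ⟨θ, hθ, t1, t2, t3⟩ := plane_three (PairOn.of hL _) hsum (hR p hp hp0) (hR q hq hq0)
      (hR _ (P.add_mem hp hq) hpq0) b1 b2 b3 ⟨ζ, hζ, rfl⟩
    have t0 : θ g = ζ g := by
      rw [← hsum, map_add, map_add, t1, t2, t3, vadd, zero_add]
      rw [hsum]
    have t4 : θ p = 0 := by
      rw [map_add, t0] at t1
      exact left_eq_add.1 t1.symm
    have t5 : θ q = 0 := by
      rw [map_add, t0] at t2
      exact left_eq_add.1 t2.symm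
    refine ⟨ζ + θ, mem0.2 ⟨B.add_mem hζ hθ, ?_⟩, ?_, ?_⟩
    · rw [LinearMap.add_apply, t0, vadd]
    · rw [LinearMap.add_apply, t4, add_zero, h1]
    · rw [LinearMap.add_apply, t5, add_zero, h2]
  have hR0 : ∀ p ∈ P, R2 B0 p := by
    intro p hp
    by_cases hp0 : p = 0
    · rw [hp0]; exact R2.zero B0
    intro ω₁ h1 ω₂ h2 ω₃ h3
    obtain ⟨a1, b1⟩ := mem0.1 h1
    obtain ⟨a2, b2⟩ := mem0.1 h2
    obtain ⟨a3, b3⟩ := mem0.1 h3
    have := hR p hp hp0 ω₁ a1 ω₂ a2 ω₃ a3
    simp only [map_add, b1, b2, b3, zero_add] at this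
    exact this
  have hLG : LG B0 P := lg_of_plane hL0 (plane_of_R2_on hL0 hR0 hx hy hz)
  obtain ⟨ω, hω, h1⟩ := hLG (F + m) (by
    intro p hp
    obtain ⟨ω, hω, o1, o2⟩ := line hLT (p := g) (q := p) trivial trivial (f := 0)
      (g := F p + m p) (In.zero B g) ((hF p hp).add ⟨m, hm, rfl⟩) (by
        have h := (hτ p hp).add ⟨m, hm, rfl⟩
        rw [map_add m g p, m0] at h
        have e4 : τ + F p + (τ + m p) = 0 + (F p + m p) := by
          have : τ + F p + (τ + m p) = (τ + τ) + (F p + m p) := by abel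
          rw [this, vadd]
        rwa [e4] at h)
    exact ⟨ω, mem0.2 ⟨hω, o1⟩, by rw [o2, LinearMap.add_apply]⟩)
  refine ⟨ω + m, B.add_mem (mem0.1 hω).1 hm, fun p hp => ?_⟩
  rw [LinearMap.add_apply, h1 p hp, LinearMap.add_apply, add_assoc, vadd, add_zero]

/-- cosets with at most one vector with more than four values -/
theorem good_coset2 [Finite V] {B : Fam V} (hB : EFam e B) (hL : Linked B) {x y z : V}
    (hfail : ¬ LG B (Submodule.span (ZMod 2) {x, y, z})) {p0 p1 : V}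
    (hp0 : p0 ∈ Submodule.span (ZMod 2) {x, y, z}) (hp1 : p1 ∈ Submodule.span (ZMod 2) {x, y, z})
    (hR0 : ¬ R2 B p0) (n1 : p1 ≠ 0) (n01 : p0 ≠ p1) {g : V}
    (hR : ∀ p ∈ Submodule.span (ZMod 2) {x, y, z}, p ≠ 0 → R2 B (g + p)) :
    (∀ ω ∈ B, ω g ∈ vals B p0) ∧
      (∀ p ∈ Submodule.span (ZMod 2) {x, y, z}, ∀ ω ∈ B, ω p ∈ vals B p0) ∧
      ∃ a b c : Dl V, vals B p0 = Submodule.span (ZMod 2) {a, b, c} := by
  set P := Submodule.span (ZMod 2) {x, y, z} with hPdef
  have hfail' := hfail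
  unfold LG at hfail
  push Not at hfail
  obtain ⟨F, hF, hno⟩ := hfail
  let c : P → Dl V → Prop := fun p τ => In B (g + p) (τ + F p)
  have f3 : ∀ f : Dl V, f + f + f = f := fun f => by rw [vadd, zero_add]
  have small : ∀ i : P, i ≠ 0 → ∀ (u v w t : Dl V), c i u → c i v → c i w → c i t → u ≠ v →
      u ≠ w → v ≠ w → t = u ∨ t = v ∨ t = w ∨ t = u + v + w := by
    intro i hi u v w t hu hv hw ht huv huw hvw
    have d : ∀ s, c i s → In B (g + i) (u + s) := by
      intro s hs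
      have h := hu.add hs
      have e1 : u + F i + (s + F i) = u + s := by
        have : u + F i + (s + F i) = u + s + (F i + F i) := by abel
        rw [this, vadd, add_zero]
      rwa [e1] at h
    have hi0 : (i : V) ≠ 0 := fun h => hi (Subtype.ext h)
    rcases (hR i i.2 hi0).mem (d v hv) (d w hw) (d t ht)
      (fun h => huv (Pool.Agent.W622.ETC.add_eq_zero'.1 h))
      (fun h => huw (Pool.Agent.W622.ETC.add_eq_zero'.1 h)) (fun h => hvw (add_left_cancel h).symm)
      with h | h | h | h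
    · exact Or.inl (Pool.Agent.W622.ETC.add_eq_zero'.1 h).symm
    · exact Or.inr (Or.inl (add_left_cancel h))
    · exact Or.inr (Or.inr (Or.inl (add_left_cancel h)))
    · refine Or.inr (Or.inr (Or.inr ?_))
      have h1 : u + t = u + (u + v + w) := by
        rw [h]; abel
      exact add_left_cancel h1
  have tri : ∀ i j k : P, ∃ u, c i u ∧ c j u ∧ c k u := by
    rintro ⟨p, hp⟩ ⟨q, hq⟩ ⟨r, hr⟩
    obtain ⟨m, hm, m1, m2⟩ := line (LinkedOn.of hL P) (P.add_mem hp hq) (P.add_mem hp hr)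
      (hF _ (P.add_mem hp hq)) (hF _ (P.add_mem hp hr)) (by
        rw [← map_add]
        exact hF _ (P.add_mem (P.add_mem hp hq) (P.add_mem hp hr)))
    have aux : ∀ s, m (p + s) = F (p + s) → m (g + p) + F p + F s = m (g + s) := by
      intro s hs
      have e1 : g + s = (g + p) + (p + s) := by
        have : (g + p) + (p + s) = g + s + (p + p) := by abel
        rw [this, vadd, add_zero]
      rw [e1, map_add m (g + p), hs, map_add F, add_assoc]
    refine ⟨m (g + p) + F p, ⟨m, hm, ?_⟩, ⟨m, hm, ?_⟩, ⟨m, hm, ?_⟩⟩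
    · show m (g + p) = m (g + p) + F p + F p
      rw [add_assoc, vadd, add_zero]
    · exact (aux q m1).symm
    · exact (aux r m2).symm
  obtain ⟨z', a, b, d, hall⟩ := helly2 (M := Dl V) (ι := P) c 0 (by
      intro i u v w hu hv hw
      have h := (hu.add hv).add hw
      have e1 : u + F i + (v + F i) + (w + F i) = u + v + w + F i := by
        have : u + F i + (v + F i) + (w + F i) = u + v + w + (F i + F i + F i) := by abel
        rw [this, f3]
      rwa [e1] at h) small tri (by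
      intro τ
      by_contra hcon
      push Not at hcon
      obtain ⟨ω, hω, h1⟩ := glue2 hB hL hR hF (fun p hp => hcon ⟨p, hp⟩)
      obtain ⟨p, hp, h2⟩ := hno ω hω
      exact h2 (h1 p hp))
  set E := Submodule.span (ZMod 2) {a, b, d} with hE
  have inE : ∀ p ∈ P, p ≠ 0 → ∀ ω ∈ B, ω (g + p) ∈ E := by
    intro p hp hp0 ω hω
    obtain ⟨v, hv, -, -⟩ := tri ⟨p, hp⟩ ⟨p, hp⟩ ⟨p, hp⟩
    have hne : (⟨p, hp⟩ : P) ≠ 0 := fun h => hp0 (congrArg Subtype.val h)
    have h1 := hall ⟨p, hp⟩ hne v hv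
    have h2 : c ⟨p, hp⟩ (v + ω (g + p)) := by
      have h := hv.add ⟨ω, hω, rfl⟩
      have e4 : v + F p + ω (g + p) = v + ω (g + p) + F p := by abel
      show In B (g + p) (v + ω (g + p) + F p)
      rw [← e4]
      exact h
    have h3 := E.add_mem h1 (hall ⟨p, hp⟩ hne _ h2)
    have e5 : v + z' + (v + ω (g + p) + z') = ω (g + p) := by
      have : v + z' + (v + ω (g + p) + z') = (v + v) + (z' + z') + ω (g + p) := by abel
      rw [this, vadd, vadd, zero_add, zero_add]
    rwa [e5] at h3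
  have hp00 : p0 ≠ 0 := by
    rintro rfl
    exact hR0 (R2.zero B)
  have n2 : p0 + p1 ≠ 0 := fun h => n01 (Pool.Agent.W622.ETC.add_eq_zero'.1 h)
  have gE : ∀ ω ∈ B, ω g ∈ E := by
    intro ω hω
    have h := E.add_mem (E.add_mem (inE p0 hp0 hp00 ω hω) (inE p1 hp1 n1 ω hω))
      (inE (p0 + p1) (P.add_mem hp0 hp1) n2 ω hω)
    rw [← map_add, ← map_add] at h
    have e6 : g + p0 + (g + p1) + (g + (p0 + p1)) = g := by
      have : g + p0 + (g + p1) + (g + (p0 + p1)) = g + (g + g) + (p0 + p0) + (p1 + p1) := by abel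
      rw [this, vadd, vadd, vadd, add_zero, add_zero, add_zero]
    rwa [e6] at h
  have pE : ∀ p ∈ P, ∀ ω ∈ B, ω p ∈ E := by
    intro p hp ω hω
    by_cases hp' : p = 0
    · rw [hp', map_zero]; exact E.zero_mem
    have h := E.add_mem (gE ω hω) (inE p hp hp' ω hω)
    rw [map_add, ← add_assoc, vadd, zero_add] at h
    exact h
  have hle : vals B p0 ≤ E := by
    rintro _ ⟨ω, hω, rfl⟩
    exact pE p0 hp0 ω hω
  have heq : vals B p0 = E := le_antisymm hle (span_le_vals hR0 hle)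
  refine ⟨fun ω hω => ?_, fun p hp ω hω => ?_, _, _, _, heq⟩
  · rw [heq]
    exact gE ω hω
  · rw [heq]
    exact pE p hp ω hω

end

end Pool.Agent.K3h25.ET
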