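import Pool.Agent.K3h25.ET.Pairs

/-! The number of vectors with many values. -/

set_option autoImplicit false

namespace Pool.Agent.K3h25.ET

open Pool.Agent.W622.ETG Module Pool.Agent.TH188.ETP

section
variable {V : Type} [AddCommGroup V] [Module (ZMod 2) V] {e : V}

/-- the plane condition, if at most one of four different vectors has more than four values -/
theorem plane_of_one [Finite V] {B : Fam V} (hL : Linked B) {x y z : V}
    (h1 : ∀ p ∈ ({x, y, z, x + y + z} : Set V), ∀ q ∈ ({x, y, z, x + y + z} : Set V),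
      ¬ R2 B p → ¬ R2 B q → p = q) : PlaneAt B x y z := by
  intro f fx fy fz fw
  by_cases hxy : x = y
  · obtain ⟨ω, hω, e1, e2⟩ := pairL hL x z f fx fz
    exact ⟨ω, hω, e1, hxy ▸ e1, e2⟩
  by_cases hxz : x = z
  · obtain ⟨ω, hω, e1, e2⟩ := pairL hL x y f fx fy
    exact ⟨ω, hω, e1, e2, hxz ▸ e1⟩
  by_cases hyz : y = z
  · obtain ⟨ω, hω, e1, e2⟩ := pairL hL x y f fx fy
    exact ⟨ω, hω, e1, e2, hyz ▸ e2⟩
  set w := x + y + z with hw
  have hwx : x ≠ w := by
    intro h
    apply hyz
    rw [hw, add_assoc] at h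
    exact Pool.Agent.W622.ETC.add_eq_zero'.1 (left_eq_add.1 h)
  have hwy : y ≠ w := by
    intro h
    apply hxz
    have h2 : x + y + z = y + (x + z) := by abel
    rw [hw, h2] at h
    exact Pool.Agent.W622.ETC.add_eq_zero'.1 (left_eq_add.1 h)
  have hwz : z ≠ w := by
    intro h
    apply hxy
    have h2 : x + y + z = z + (x + y) := by abel
    rw [hw, h2] at h
    exact Pool.Agent.W622.ETC.add_eq_zero'.1 (left_eq_add.1 h)
  have mx : x ∈ ({x, y, z, w} : Set V) := by simp
  have my : y ∈ ({x, y, z, w} : Set V) := by simp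
  have mz : z ∈ ({x, y, z, w} : Set V) := by simp
  have mw : w ∈ ({x, y, z, w} : Set V) := by simp
  have fff : f + f + f = f := by rw [vadd, zero_add]
  have hsum : x + y + z = w := rfl
  by_cases hx : R2 B x
  · by_cases hy : R2 B y
    · by_cases hz : R2 B z
      · exact plane_three (PairOn.of hL _) hsum hx hy hz fx fy fz fw
      · have hRw : R2 B w := by
          by_contra h
          exact hwz (h1 z mz w mw hz h)
        have hs : x + y + w = z := by
          rw [← hsum]
          have : x + y + (x + y + z) = (x + x) + (y + y) + z := by abel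
          rw [this, vadd, vadd, zero_add, zero_add]
        obtain ⟨ω, hω, e1, e2, e3⟩ := plane_three (PairOn.of hL _) hs hx hy hRw fx fy fw fz
        exact ⟨ω, hω, e1, e2, by rw [← hs, map_add, map_add, e1, e2, e3, fff]⟩
    · have hz : R2 B z := by
        by_contra h
        exact hyz (h1 y my z mz hy h)
      have hRw : R2 B w := by
        by_contra h
        exact hwy (h1 y my w mw hy h)
      have hs : x + z + w = y := by
        rw [← hsum]
        have : x + z + (x + y + z) = (x + x) + (z + z) + y := by abel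
        rw [this, vadd, vadd, zero_add, zero_add]
      obtain ⟨ω, hω, e1, e2, e3⟩ := plane_three (PairOn.of hL _) hs hx hz hRw fx fz fw fy
      exact ⟨ω, hω, e1, by rw [← hs, map_add, map_add, e1, e2, e3, fff], e2⟩
  · have hy : R2 B y := by
      by_contra h
      exact hxy (h1 x mx y my hx h)
    have hz : R2 B z := by
      by_contra h
      exact hxz (h1 x mx z mz hx h)
    have hRw : R2 B w := by
      by_contra h
      exact hwx (h1 x mx w mw hx h)
    have hs : y + z + w = x := by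
      rw [← hsum]
      have : y + z + (x + y + z) = (y + y) + (z + z) + x := by abel
      rw [this, vadd, vadd, zero_add, zero_add]
    obtain ⟨ω, hω, e1, e2, e3⟩ := plane_three (PairOn.of hL _) hs hy hz hRw fy fz fw fx
    exact ⟨ω, hω, by rw [← hs, map_add, map_add, e1, e2, e3, fff], e1, e2⟩

/-- the vectors of `P` with many values: two of them in each affine hyperplane -/
theorem two_bad [Finite V] {B : Fam V} (hL : Linked B) {x y z : V}
    (hfail : ¬ LG B (Submodule.span (ZMod 2) {x, y, z})) (φ : V →ₗ[ZMod 2] ZMod 2)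
    (hφ : ∃ p ∈ Submodule.span (ZMod 2) {x, y, z}, φ p = 1) :
    ∃ p ∈ Submodule.span (ZMod 2) {x, y, z}, ∃ q ∈ Submodule.span (ZMod 2) {x, y, z},
      p ≠ q ∧ φ p = 1 ∧ φ q = 1 ∧ ¬ R2 B p ∧ ¬ R2 B q := by
  by_contra hcon
  push Not at hcon
  have h1 : ∀ p ∈ Submodule.span (ZMod 2) {x, y, z}, ∀ q ∈ Submodule.span (ZMod 2) {x, y, z},
      φ p = 1 → φ q = 1 → ¬ R2 B p → ¬ R2 B q → p = q := by
    intro p hp q hq h1 h2 h3 h4
    by_contra h5
    exact h4 (hcon p hp q hq h5 h1 h2 h3)
  have key : ∀ a b c : V, ({a, b, c} : Set V) = {x, y, z} → φ a = 1 → False := by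
    intro a b c habc ha
    obtain ⟨y', hy', e1⟩ := span_adjust a b c φ ha
    obtain ⟨z', hz', e2⟩ := span_adjust a c y' φ ha
    have e3 : Submodule.span (ZMod 2) {a, y', z'} = Submodule.span (ZMod 2) {x, y, z} := by
      rw [span_swap, e2, span_swap, e1, habc]
    apply hfail
    rw [← e3]
    have m1 : a ∈ Submodule.span (ZMod 2) {x, y, z} := by
      rw [← e3]; exact Submodule.subset_span (by simp)
    have m2 : y' ∈ Submodule.span (ZMod 2) {x, y, z} := by
      rw [← e3]; exact Submodule.subset_span (by simp)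
    have m3 : z' ∈ Submodule.span (ZMod 2) {x, y, z} := by
      rw [← e3]; exact Submodule.subset_span (by simp)
    have hT : ∀ r ∈ ({a, y', z', a + y' + z'} : Set V),
        r ∈ Submodule.span (ZMod 2) {x, y, z} ∧ φ r = 1 := by
      rintro r (rfl | rfl | rfl | rfl)
      · exact ⟨m1, ha⟩
      · exact ⟨m2, hy'⟩
      · exact ⟨m3, hz'⟩
      · exact ⟨Submodule.add_mem _ (Submodule.add_mem _ m1 m2) m3, by
          rw [map_add, map_add, ha, hy', hz']; rfl⟩
    exact lg_of_plane (LinkedOn.of hL _) (plane_of_one hL fun p hp q hq hRp hRq =>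
      h1 p (hT p hp).1 q (hT q hq).1 (hT p hp).2 (hT q hq).2 hRp hRq)
  obtain ⟨p, hp, hp1⟩ := hφ
  have hx : φ x = 0 := (z01 (φ x)).resolve_right fun h => key x y z rfl h
  have hy : φ y = 0 := (z01 (φ y)).resolve_right fun h => key y x z (by
    ext u; simp only [Set.mem_insert_iff, Set.mem_singleton_iff]; tauto) h
  have hz : φ z = 0 := (z01 (φ z)).resolve_right fun h => key z x y (by
    ext u; simp only [Set.mem_insert_iff, Set.mem_singleton_iff]; tauto) h
  obtain ⟨a, b, c, rfl⟩ := Submodule.mem_span_triple.1 hp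
  rw [map_add, map_add, map_smul, map_smul, map_smul, hx, hy, hz] at hp1
  simp at hp1

/-- a third vector with many values -/
theorem third_bad [Finite V] {B : Fam V} (hL : Linked B) {x y z : V}
    (hfail : ¬ LG B (Submodule.span (ZMod 2) {x, y, z})) (p q : V)
    (hp : p ∈ Submodule.span (ZMod 2) {x, y, z}) (hp0 : p ≠ 0) (hpq : p ≠ q) :
    ∃ r ∈ Submodule.span (ZMod 2) {x, y, z}, r ≠ p ∧ r ≠ q ∧ ¬ R2 B r := by
  have h1 : p ∉ Submodule.span (ZMod 2) {q} := by
    intro h
    obtain ⟨c, rfl⟩ := Submodule.mem_span_singleton.1 h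
    rcases z01 c with rfl | rfl
    · exact hp0 (zero_smul _ _)
    · exact hpq (one_smul _ _)
  obtain ⟨φ, h2, h3⟩ := Submodule.exists_le_ker_of_notMem h1
  have h4 : φ q = 0 := h3 (Submodule.mem_span_singleton_self q)
  obtain ⟨r, hr, s, hs, hrs, r1, s1, r2, s2⟩ := two_bad hL hfail φ ⟨p, hp, z_ne h2⟩
  have hne : ∀ t, φ t = 1 → t ≠ q := by
    rintro t ht rfl
    rw [h4] at ht
    exact absurd ht (by decide)
  by_cases h : r = p
  · exact ⟨s, hs, fun h' => hrs (h.trans h'.symm), hne s s1, s2⟩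
  · exact ⟨r, hr, h, hne r r1, r2⟩

/-- the two cases -/
theorem cases_of_fail [Finite V] {B : Fam V} (hB : EFam e B) (hL : Linked B) {x y z : V}
    (hfail : ¬ LG B (Submodule.span (ZMod 2) {x, y, z})) :
    (∃ K : Submodule (ZMod 2) V, K ≠ ⊤ ∧ Submodule.span (ZMod 2) {x, y, z} ≤ K ∧
      (∃ p0 ∈ Submodule.span (ZMod 2) {x, y, z}, ¬ R2 B p0 ∧
        ∀ v, v ∉ K → ¬ R2 B v ∨ ¬ R2 B (v + p0)) ∧
      ∀ g, g ∉ K → ∃ p ∈ Submodule.span (ZMod 2) {x, y, z},
        ∃ q ∈ Submodule.span (ZMod 2) {x, y, z}, p ≠ q ∧ ¬ R2 B (g + p) ∧ ¬ R2 B (g + q)) ∨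
    ∀ g, ∃ p ∈ Submodule.span (ZMod 2) {x, y, z},
      ∃ q ∈ Submodule.span (ZMod 2) {x, y, z}, p ≠ q ∧ ¬ R2 B (g + p) ∧ ¬ R2 B (g + q) := by
  set P := Submodule.span (ZMod 2) {x, y, z} with hPdef
  have hx : x ∈ P := Submodule.subset_span (by simp)
  have hy : y ∈ P := Submodule.subset_span (by simp)
  have hz : z ∈ P := Submodule.subset_span (by simp)
  obtain ⟨p0, hp0, hR0⟩ : ∃ p0 ∈ P, ¬ R2 B p0 := by
    by_contra hcon
    push Not at hcon
    exact hfail (lg_of_plane (LinkedOn.of hL _)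
      (plane_of_R2_on (LinkedOn.of hL P) hcon hx hy hz))
  have hp00 : p0 ≠ 0 := by
    rintro rfl
    exact hR0 (R2.zero B)
  obtain ⟨p1, hp1, n10, n11, hR1⟩ := third_bad hL hfail p0 0 hp0 hp00 hp00
  by_cases hg : ∃ g0, ∀ p ∈ P, p ≠ 0 → R2 B (g0 + p)
  · left
    obtain ⟨g0, hg0⟩ := hg
    obtain ⟨-, hPE, a, b, c, habc⟩ :=
      good_coset2 hB hL hfail hp0 hp1 hR0 n11 n10.symm hg0
    have inK : ∀ g, (∀ p ∈ P, p ≠ 0 → R2 B (g + p)) → g ∈ below B (vals B p0) := fun g h =>
      (good_coset2 hB hL hfail hp0 hp1 hR0 n11 n10.symm h).1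
    have PK : P ≤ below B (vals B p0) := fun p hp ω hω => hPE p hp ω hω
    refine ⟨below B (vals B p0), fun hK => ?_, PK, ⟨p0, hp0, hR0, fun v hv => ?_⟩,
      fun g hgK => ?_⟩
    · refine hfail (lg_of_dim_three hB hL (a := a) (b := b) (c := c) (fun ω hω v => ?_) x y z)
      rw [← habc]
      have hv : v ∈ below B (vals B p0) := by rw [hK]; exact Submodule.mem_top
      exact hv ω hω
    · by_contra hcon
      push Not at hcon
      refine no_good_pair hL hfail hp0 hR0 habc hPE (v := v) ?_ hcon.1 hcon.2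
      by_contra h
      push Not at h
      exact hv h
    · by_contra hcon
      push Not at hcon
      by_cases h1 : ∃ p ∈ P, ¬ R2 B (g + p)
      · obtain ⟨p, hp, hR⟩ := h1
        have h2 := inK (g + p) (by
          intro q hq hq0
          rw [add_assoc]
          refine hcon p hp (p + q) (P.add_mem hp hq) (fun h => hq0 ?_) hR
          exact left_eq_add.1 h)
        have h3 := (below B (vals B p0)).add_mem h2 (PK hp)
        rw [add_assoc, vadd, add_zero] at h3
        exact hgK h3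
      · push Not at h1
        exact hgK (inK g fun p hp _ => h1 p hp)
  · right
    push Not at hg
    intro g
    obtain ⟨p, hp, hp', hR⟩ := hg g
    obtain ⟨q, hq, hq', hR'⟩ := hg (g + p)
    refine ⟨p, hp, p + q, P.add_mem hp hq, fun h => hq' (left_eq_add.1 h), hR, ?_⟩
    rw [← add_assoc]
    exact hR'

/-- if at most one vector with many values lies outside `W`, then `W` is everything -/
theorem top_of_not_lg2 [Finite V] {B : Fam V} (hB : EFam e B) (hL : Linked B) {x y z : V}
    (hfail : ¬ LG B (Submodule.span (ZMod 2) {x, y, z})) (W : Submodule (ZMod 2) V)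
    (hW : ∀ u v, ¬ R2 B u → ¬ R2 B v → u ∉ W → v ∉ W → u = v) : W = ⊤ := by
  set P := Submodule.span (ZMod 2) {x, y, z} with hPdef
  have hPW : P ≤ W := by
    intro p hp
    by_contra hpW
    obtain ⟨φ, h1, h2⟩ := Submodule.exists_le_ker_of_notMem hpW
    obtain ⟨r, hr, s, hs, hrs, r1, s1, r2, s2⟩ := two_bad hL hfail φ ⟨p, hp, z_ne h1⟩
    have hn : ∀ t, φ t = 1 → t ∉ W := by
      intro t ht htW
      have h3 : φ t = 0 := h2 htW
      rw [h3] at ht
      exact absurd ht (by decide)
    exact hrs (hW r s r2 s2 (hn r r1) (hn s s1))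
  obtain ⟨K, hK, h⟩ : ∃ K : Submodule (ZMod 2) V, K ≠ ⊤ ∧ ∀ g, g ∉ K → ∃ p ∈ P,
      ∃ q ∈ P, p ≠ q ∧ ¬ R2 B (g + p) ∧ ¬ R2 B (g + q) := by
    rcases cases_of_fail hB hL hfail with ⟨K, hK, -, -, h⟩ | h
    · exact ⟨K, hK, h⟩
    · refine ⟨⊥, fun hbt => ?_, fun g _ => h g⟩
      obtain ⟨p, -, q, -, hpq, -, -⟩ := h 0
      apply hpq
      have h1 : ∀ v : V, v = 0 := fun v => by
        have : v ∈ (⊥ : Submodule (ZMod 2) V) := by rw [hbt]; exact Submodule.mem_top
        exact (Submodule.mem_bot _).1 this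
      rw [h1 p, h1 q]
  have cover : ∀ g, g ∈ K ∨ g ∈ W := by
    intro g
    by_contra hcon
    push Not at hcon
    obtain ⟨p, hp, q, hq, hpq, h1, h2⟩ := h g hcon.1
    have hn : ∀ t ∈ P, g + t ∉ W := by
      intro t ht htW
      exact hcon.2 ((W.add_mem_iff_left (hPW ht)).1 htW)
    exact hpq (add_left_cancel (hW _ _ h1 h2 (hn p hp) (hn q hq)))
  obtain ⟨g0, hg0⟩ : ∃ g0, g0 ∉ K := by
    by_contra hcon
    push Not at hcon
    exact hK ((Submodule.eq_top_iff').2 hcon)
  have hg0W := (cover g0).resolve_left hg0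
  rw [Submodule.eq_top_iff']
  intro k
  rcases cover k with hk | hk
  · have h3 : k + g0 ∉ K := fun h4 => hg0 ((K.add_mem_iff_right hk).1 h4)
    have h5 := W.add_mem ((cover _).resolve_left h3) hg0W
    rwa [add_assoc, vadd, add_zero] at h5
  · exact hk

/-- more than a quarter of all vectors have many values -/
theorem card_lt_of_not_lg2 [Finite V] {B : Fam V} (hB : EFam e B) (hL : Linked B) {x y z : V}
    (hfail : ¬ LG B (Submodule.span (ZMod 2) {x, y, z})) :
    Nat.card V < 4 * Nat.card {v : V // ¬ R2 B v} := by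
  classical
  set P := Submodule.span (ZMod 2) {x, y, z} with hPdef
  have : Fintype V := Fintype.ofFinite V
  rcases cases_of_fail hB hL hfail with ⟨K, hK, hPK, ⟨p0, hp0, hR0, h⟩, -⟩ | h
  · obtain ⟨g0, hg0⟩ : ∃ g0, g0 ∉ K := by
      by_contra hcon
      push Not at hcon
      exact hK ((Submodule.eq_top_iff').2 hcon)
    let f : (ZMod 2 × ZMod 2) × {v : V // ¬ R2 B v} → V := fun t =>
      t.1.1 • g0 + (t.2.1 + t.1.2 • p0)
    have hf1 : ∀ v, v ∉ K → ∃ (a : ZMod 2) (w : {v : V // ¬ R2 B v}), v = w + a • p0 := by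
      intro v hv
      rcases h v hv with h1 | h1
      · exact ⟨0, ⟨v, h1⟩, by rw [zero_smul, add_zero]⟩
      · refine ⟨1, ⟨v + p0, h1⟩, ?_⟩
        rw [one_smul]
        show v = v + p0 + p0
        rw [add_assoc, vadd, add_zero]
    have hsurj : Function.Surjective f := by
      intro v
      by_cases hv : v ∈ K
      · have h3 : v + g0 ∉ K := fun h4 => hg0 ((K.add_mem_iff_right hv).1 h4)
        obtain ⟨a, w, hw⟩ := hf1 _ h3
        refine ⟨((1, a), w), ?_⟩
        show (1 : ZMod 2) • g0 + (w + a • p0) = v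
        rw [← hw, one_smul, add_comm v g0, ← add_assoc, vadd, zero_add]
      · obtain ⟨a, w, hw⟩ := hf1 _ hv
        refine ⟨((0, a), w), ?_⟩
        show (0 : ZMod 2) • g0 + (w + a • p0) = v
        rw [← hw, zero_smul, zero_add]
    have hninj : ¬ Function.Injective f := by
      intro hinj
      obtain ⟨a, w, hw⟩ := hf1 _ hg0
      have h1 : f ((1, a), w) = 0 := by
        show (1 : ZMod 2) • g0 + (w + a • p0) = 0
        rw [← hw, one_smul, vadd]
      have h2 : f ((0, 1), ⟨p0, hR0⟩) = 0 := by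
        show (0 : ZMod 2) • g0 + (p0 + (1 : ZMod 2) • p0) = 0
        rw [one_smul, vadd, zero_smul, zero_add]
      have h3 := hinj (h1.trans h2.symm)
      have h4 : (1 : ZMod 2) = 0 := congrArg (fun t => t.1.1) h3
      exact absurd h4 (by decide)
    have h1 : Nat.card ((ZMod 2 × ZMod 2) × {v : V // ¬ R2 B v}) =
        4 * Nat.card {v : V // ¬ R2 B v} := by
      rw [Nat.card_prod, Nat.card_prod, Nat.card_zmod]
    have h2 := Nat.card_le_card_of_surjective f hsurj
    rw [h1] at h2
    refine lt_of_le_of_ne h2 fun h3 => hninj ?_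
    have h4 : Nat.card ((ZMod 2 × ZMod 2) × {v : V // ¬ R2 B v}) = Nat.card V := by
      rw [h1, h3]
    have : Fintype ((ZMod 2 × ZMod 2) × {v : V // ¬ R2 B v}) := Fintype.ofFinite _
    rw [Nat.card_eq_fintype_card, Nat.card_eq_fintype_card] at h4
    exact ((Fintype.bijective_iff_surjective_and_card f).2 ⟨hsurj, h4⟩).1
  · choose p hp q hq hpq hbp hbq using h
    let f : V × Bool → P × {v : V // ¬ R2 B v} := fun t =>
      if t.2 then (⟨p t.1, hp t.1⟩, ⟨t.1 + p t.1, hbp t.1⟩)
      else (⟨q t.1, hq t.1⟩, ⟨t.1 + q t.1, hbq t.1⟩)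
    have hft : ∀ g, f (g, true) = (⟨p g, hp g⟩, ⟨g + p g, hbp g⟩) := fun _ => rfl
    have hff : ∀ g, f (g, false) = (⟨q g, hq g⟩, ⟨g + q g, hbq g⟩) := fun _ => rfl
    have hinj : Function.Injective f := by
      rintro ⟨g, s⟩ ⟨g', s'⟩ h
      cases s <;> cases s'
      · rw [hff, hff, Prod.mk.injEq, Subtype.mk.injEq, Subtype.mk.injEq] at h
        obtain ⟨e1, e2⟩ := h
        rw [e1] at e2
        rw [add_right_cancel e2]
      · rw [hff, hft, Prod.mk.injEq, Subtype.mk.injEq, Subtype.mk.injEq] at h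
        obtain ⟨e1, e2⟩ := h
        rw [e1] at e2
        have e3 := add_right_cancel e2
        rw [e3] at e1
        exact absurd e1.symm (hpq g')
      · rw [hft, hff, Prod.mk.injEq, Subtype.mk.injEq, Subtype.mk.injEq] at h
        obtain ⟨e1, e2⟩ := h
        rw [e1] at e2
        have e3 := add_right_cancel e2
        rw [e3] at e1
        exact absurd e1 (hpq g')
      · rw [hft, hft, Prod.mk.injEq, Subtype.mk.injEq, Subtype.mk.injEq] at h
        obtain ⟨e1, e2⟩ := h
        rw [e1] at e2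
        rw [add_right_cancel e2]
    have hnsurj : ¬ Function.Surjective f := by
      intro hsurj
      have hp00 : p 0 ≠ 0 := by
        intro h0
        apply hbp 0
        rw [h0, add_zero]
        exact R2.zero B
      obtain ⟨r, hr, r1, r2, hRr⟩ := third_bad hL hfail (p 0) (q 0) (hp 0) hp00 (hpq 0)
      obtain ⟨⟨g, s⟩, h⟩ := hsurj (⟨r, hr⟩, ⟨r, hRr⟩)
      cases s
      · rw [hff, Prod.mk.injEq, Subtype.mk.injEq, Subtype.mk.injEq] at h
        obtain ⟨e1, e2⟩ := h
        rw [e1] at e2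
        have e3 : g = 0 := add_eq_right.1 e2
        rw [e3] at e1
        exact r2 e1.symm
      · rw [hft, Prod.mk.injEq, Subtype.mk.injEq, Subtype.mk.injEq] at h
        obtain ⟨e1, e2⟩ := h
        rw [e1] at e2
        have e3 : g = 0 := add_eq_right.1 e2
        rw [e3] at e1
        exact r1 e1.symm
    have : Fintype (V × Bool) := Fintype.ofFinite _
    have : Fintype (P × {v : V // ¬ R2 B v}) := Fintype.ofFinite _
    have h1 := Fintype.card_lt_of_injective_not_surjective f hinj hnsurj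
    rw [← Nat.card_eq_fintype_card, ← Nat.card_eq_fintype_card, Nat.card_prod, Nat.card_prod] at h1
    have h2 : Nat.card Bool = 2 := by rw [Nat.card_eq_fintype_card, Fintype.card_bool]
    rw [h2] at h1
    have h3 : Nat.card P ≤ 8 := by
      let k : ZMod 2 × ZMod 2 × ZMod 2 → P := fun t =>
        ⟨t.1 • x + t.2.1 • y + t.2.2 • z, Submodule.mem_span_triple.2 ⟨_, _, _, rfl⟩⟩
      have hk : Function.Surjective k := by
        rintro ⟨v, hv⟩
        obtain ⟨a, b, c, habc⟩ := Submodule.mem_span_triple.1 hv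
        exact ⟨(a, b, c), Subtype.ext habc⟩
      have := Nat.card_le_card_of_surjective k hk
      rwa [Nat.card_prod, Nat.card_prod, Nat.card_zmod] at this
    have h4 : Nat.card P * Nat.card {v : V // ¬ R2 B v} ≤ 8 * Nat.card {v : V // ¬ R2 B v} :=
      Nat.mul_le_mul_right _ h3
    omega

end

end Pool.Agent.K3h25.ET
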