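import Pool.Agent.K3h25.ET.Struct
import Pool.Agent.K3h25.ET.Count
import Pool.Agent.H315R3.ETC.Basic

/-! Additive quaternionic structures which are not of elementary type have many value groups of
index greater than four. -/

set_option autoImplicit false

namespace Pool.Agent.K3h25.ET

open Pool.Agent.H315R3.ETC Pool.Agent.W622.ETG Module Pool.Agent.TH188.ETP
open Pool.Agent.TH188.ETV

universe v

section
variable {S : QData} (hS : IsQuat S) {B : Type v}
  [AddCommGroup B] (β : S.G → S.G → B)
  (hmul : ∀ a b c, β a (b * c) = β a b + β a c)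
  (hiff : ∀ a b c d, β a b = β c d ↔ S.q a b = S.q c d)

include hmul hiff

theorem card_Qs_eq (a : S.G) : Nat.card (Qs β a) = (D hS a).index := by
  obtain ⟨f, hf1, -, hf3⟩ := card_Qs β hmul a
  rw [← hf3, ← Subgroup.index_toAddSubgroup]
  congr 1
  have q1 : S.q a 1 = S.zero := by
    have := (hS.qs3 a 1 1).1 rfl
    rwa [mul_one] at this
  have b1 : β a 1 = 0 := by
    have := hmul a 1 1
    rw [mul_one] at this
    exact left_eq_add.1 this
  ext b
  have h1 : f b = β a b.toMul := hf1 b.toMul
  rw [AddMonoidHom.mem_ker, h1, ← b1, hiff, q1]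
  rfl

end

section
variable (S : QData) (hS : IsQuat S) (hfin : Finite S.G) {B : Type v}
  [AddCommGroup B] (hB : ∀ b : B, b + b = 0) (β : S.G → S.G → B)
  (hmul : ∀ a b c, β a (b * c) = β a b + β a c)
  (hiff : ∀ a b c d, β a b = β c d ↔ S.q a b = S.q c d)

include hfin hB hmul hiff

theorem elem_of_fam (H : ∀ (_ : Module (ZMod 2) (Additive S.G)) (e : Additive S.G)
      (A : Fam (Additive S.G)), EFam e A → Linked A →
      (∀ p : Additive S.G, ¬ R2 A p → 4 < (D hS p.toMul).index) →
      ∀ x y z : Additive S.G, LG A (Submodule.span (ZMod 2) {x, y, z})) : Elem S := by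
  refine elem_of_hered S hS hfin hB β hmul hiff fun i e A hA hL hR => ?_
  have : Finite (Additive S.G) := hfin
  by_contra hH
  obtain ⟨C, hCA, hC, hLC, x, y, z, hf⟩ := hered_or_fail hA hL hH
  refine hf (H i e C hC hLC (fun p hp => ?_) x y z)
  by_contra h
  apply hp
  refine R2.mono hCA (hR p ?_)
  rw [card_Qs_eq hS β hmul hiff]
  omega

/-- the elements whose value groups have index greater than four, but one, generate -/
theorem elem_of_subgroup (W : Subgroup S.G) (hW : W ≠ ⊤)
    (h : ∀ a b : S.G, a ∉ W → b ∉ W → 4 < (D hS a).index → 4 < (D hS b).index → a = b) :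
    Elem S := by
  refine elem_of_fam S hS hfin hB β hmul hiff fun i e A hA hL hR x y z => ?_
  have : Finite (Additive S.G) := hfin
  by_contra hf
  let W' : Submodule (ZMod 2) (Additive S.G) :=
    { carrier := {a | a.toMul ∈ W}
      add_mem' := fun {a b} ha hb => W.mul_mem ha hb
      zero_mem' := W.one_mem
      smul_mem' := by
        intro c a ha
        rcases z01 c with rfl | rfl
        · rw [zero_smul]; exact W.one_mem
        · rw [one_smul]; exact ha }
  have hm : ∀ a : Additive S.G, a ∈ W' ↔ a.toMul ∈ W := fun _ => Iff.rfl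
  have h1 := top_of_not_lg2 hA hL hf W' (by
    intro u v hu hv hu' hv'
    have := h u.toMul v.toMul hu' hv' (hR u hu) (hR v hv)
    exact Additive.toMul.injective this)
  apply hW
  rw [Subgroup.eq_top_iff']
  intro a
  have h2 : Additive.ofMul a ∈ W' := by rw [h1]; exact Submodule.mem_top
  exact h2

/-- more than a quarter of all value groups have index greater than four -/
theorem elem_of_card (h : 4 * {a : S.G | 4 < (D hS a).index}.ncard ≤ Nat.card S.G) :
    Elem S := by
  refine elem_of_fam S hS hfin hB β hmul hiff fun i e A hA hL hR x y z => ?_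
  have : Finite (Additive S.G) := hfin
  by_contra hf
  have h1 := card_lt_of_not_lg2 hA hL hf
  have h2 : Nat.card {v : Additive S.G // ¬ R2 A v} ≤
      {a : S.G | 4 < (D hS a).index}.ncard := by
    rw [← Nat.card_coe_set_eq]
    refine Nat.card_le_card_of_injective
      (fun t : {v : Additive S.G // ¬ R2 A v} =>
        (⟨t.1.toMul, hR t.1 t.2⟩ : {a : S.G | 4 < (D hS a).index})) ?_
    intro s t hst
    rw [Subtype.mk.injEq] at hst
    exact Subtype.ext (Additive.toMul.injective hst)
  have h3 : Nat.card (Additive S.G) = Nat.card S.G := rfl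
  omega

end

end Pool.Agent.K3h25.ET
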