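import Pool.Agent.K3h25.ET.Local

/-! Subspaces of dimension three on which a linked family is not local-global. -/

set_option autoImplicit false

namespace Pool.Agent.K3h25.ET

open Pool.Agent.W622.ETG Module Pool.Agent.TH188.ETP

section
variable {V : Type} [AddCommGroup V] [Module (ZMod 2) V] {e : V}

/-- the space of values at `p` -/
def vals (A : Fam V) (p : V) : DSub V := A.map (LinearMap.applyₗ p)

theorem mem_vals {A : Fam V} {p : V} {f : Dl V} : f ∈ vals A p ↔ In A p f := Iff.rfl

/-- the vectors all of whose values lie in `E` -/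
def below (A : Fam V) (E : DSub V) : Submodule (ZMod 2) V where
  carrier := {v | ∀ ω ∈ A, ω v ∈ E}
  add_mem' := fun {a b} ha hb ω hω => by
    rw [map_add]
    exact E.add_mem (ha ω hω) (hb ω hω)
  zero_mem' := fun ω _ => by
    rw [map_zero]
    exact E.zero_mem
  smul_mem' := fun c v hv ω hω => by
    rw [map_smul]
    exact E.smul_mem c (hv ω hω)

theorem indep3 {M : Type*} [AddCommGroup M] [Module (ZMod 2) M] {a b c : M} (ha : a ≠ 0)
    (hb : b ≠ 0) (hc : c ≠ 0) (hab : a ≠ b) (hac : a ≠ c) (hbc : b ≠ c) (habc : a ≠ b + c) :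
    LinearIndependent (ZMod 2) ![a, b, c] := by
  have h2 : ∀ m : M, m + m = 0 := fun m => vadd m
  rw [Fintype.linearIndependent_iff]
  intro g hg
  rw [Fin.sum_univ_three] at hg
  simp only [Matrix.cons_val_zero, Matrix.cons_val_one, Matrix.cons_val] at hg
  have key : g 0 = 0 ∧ g 1 = 0 ∧ g 2 = 0 := by
    rcases z01 (g 0) with h0 | h0 <;> rcases z01 (g 1) with h1 | h1 <;>
      rcases z01 (g 2) with h3 | h3 <;> rw [h0, h1, h3] at hg <;>
      simp only [zero_smul, one_smul, zero_add, add_zero] at hg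
    · exact ⟨h0, h1, h3⟩
    · exact absurd hg hc
    · exact absurd hg hb
    · exact absurd (Pool.Agent.W622.ETC.add_eq_zero'.1 hg) hbc
    · exact absurd hg ha
    · exact absurd (Pool.Agent.W622.ETC.add_eq_zero'.1 hg) hac
    · exact absurd (Pool.Agent.W622.ETC.add_eq_zero'.1 hg) hab
    · exact absurd (Pool.Agent.W622.ETC.add_eq_zero'.1 (by rw [← add_assoc]; exact hg)) habc
  intro i
  fin_cases i
  · exact key.1
  · exact key.2.1
  · exact key.2.2

/-- more than four values inside a space of dimension three: all of it -/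
theorem span_le_vals [Finite V] {A : Fam V} {p : V} (hR : ¬ R2 A p) {a b c : Dl V}
    (h : vals A p ≤ Submodule.span (ZMod 2) {a, b, c}) :
    Submodule.span (ZMod 2) {a, b, c} ≤ vals A p := by
  classical
  unfold R2 at hR
  push Not at hR
  obtain ⟨ω₁, h1, ω₂, h2, ω₃, h3, n1, n2, n3, n12, n13, n23, n123⟩ := hR
  have hli := indep3 n1 n2 n3 n12 n13 n23 n123
  have hsub : Submodule.span (ZMod 2) (Set.range ![ω₁ p, ω₂ p, ω₃ p]) ≤ vals A p := by
    rw [Submodule.span_le]
    rintro _ ⟨i, rfl⟩
    fin_cases i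
    · exact ⟨ω₁, h1, rfl⟩
    · exact ⟨ω₂, h2, rfl⟩
    · exact ⟨ω₃, h3, rfl⟩
  have hf1 : finrank (ZMod 2) (Submodule.span (ZMod 2) (Set.range ![ω₁ p, ω₂ p, ω₃ p])) = 3 := by
    rw [finrank_span_eq_card hli]
    rfl
  have hf2 : finrank (ZMod 2) (Submodule.span (ZMod 2) ({a, b, c} : Set (Dl V))) ≤ 3 := by
    have h4 := finrank_span_finset_le_card (R := ZMod 2) ({a, b, c} : Finset (Dl V))
    have h5 : ((({a, b, c} : Finset (Dl V)) : Set (Dl V))) = {a, b, c} := by simp
    rw [h5] at h4
    exact h4.trans Finset.card_le_three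
  have hf3 := Submodule.finrank_mono hsub
  have := Submodule.eq_of_le_of_finrank_le h (by omega)
  exact this.ge

/-- good cosets -/
theorem good_coset [Finite V] {B : Fam V} (hB : EFam e B) (hL : Linked B) {x y z : V}
    (hfail : ¬ LG B (Submodule.span (ZMod 2) {x, y, z})) {p0 : V}
    (hp0 : p0 ∈ Submodule.span (ZMod 2) {x, y, z}) (hR0 : ¬ R2 B p0) {g : V}
    (hR : ∀ p ∈ Submodule.span (ZMod 2) {x, y, z}, R2 B (g + p)) :
    (∀ ω ∈ B, ω g ∈ vals B p0) ∧ ∃ a b c : Dl V, vals B p0 = Submodule.span (ZMod 2) {a, b, c} := by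
  set P := Submodule.span (ZMod 2) {x, y, z} with hPdef
  unfold LG at hfail
  push Not at hfail
  obtain ⟨F, hF, hno⟩ := hfail
  let c : P → Dl V → Prop := fun p τ => In B (g + p) (τ + F p)
  have f3 : ∀ f : Dl V, f + f + f = f := fun f => by rw [vadd, zero_add]
  have small : ∀ (i : P) (u v w t : Dl V), c i u → c i v → c i w → c i t → u ≠ v → u ≠ w →
      v ≠ w → t = u ∨ t = v ∨ t = w ∨ t = u + v + w := by
    intro i u v w t hu hv hw ht huv huw hvw
    have d : ∀ s, c i s → In B (g + i) (u + s) := by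
      intro s hs
      have h := hu.add hs
      have e1 : u + F i + (s + F i) = u + s := by
        have : u + F i + (s + F i) = u + s + (F i + F i) := by abel
        rw [this, vadd, add_zero]
      rwa [e1] at h
    rcases (hR i i.2).mem (d v hv) (d w hw) (d t ht) (fun h => huv (Pool.Agent.W622.ETC.add_eq_zero'.1 h))
      (fun h => huw (Pool.Agent.W622.ETC.add_eq_zero'.1 h)) (fun h => hvw (add_left_cancel h).symm) with h | h | h | h
    · exact Or.inl (Pool.Agent.W622.ETC.add_eq_zero'.1 h).symm
    · exact Or.inr (Or.inl (add_left_cancel h))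
    · exact Or.inr (Or.inr (Or.inl (add_left_cancel h)))
    · refine Or.inr (Or.inr (Or.inr ?_))
      have h1 : u + t = u + (u + v + w) := by
        rw [h]; abel
      exact add_left_cancel h1
  obtain ⟨x', y', z', w', nxy, nxz, nxw, nyz, nyw, nzw, hall⟩ := helly (M := Dl V) (ι := P)
    (fun m => vadd m) c ⟨0, P.zero_mem⟩ (by
      intro i u v w hu hv hw
      have h := (hu.add hv).add hw
      have e1 : u + F i + (v + F i) + (w + F i) = u + v + w + F i := by
        have : u + F i + (v + F i) + (w + F i) = u + v + w + (F i + F i + F i) := by abel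
        rw [this, f3]
      rwa [e1] at h) small (by
      rintro ⟨p, hp⟩ ⟨q, hq⟩ ⟨r, hr⟩
      obtain ⟨m, hm, m1, m2⟩ := line (LinkedOn.of hL P) (P.add_mem hp hq) (P.add_mem hp hr)
        (hF _ (P.add_mem hp hq)) (hF _ (P.add_mem hp hr)) (by
          rw [← map_add]
          exact hF _ (P.add_mem (P.add_mem hp hq) (P.add_mem hp hr)))
      have aux : ∀ s, m (p + s) = F (p + s) → m (g + p) + F p + F s = m (g + s) := by
        intro s hs
        have e1 : g + s = (g + p) + (p + s) := by
          have : (g + p) + (p + s) = g + s + (p + p) := by abel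
          rw [this, vadd, add_zero]
        rw [e1, map_add m (g + p), hs, map_add F, add_assoc]
      refine ⟨m (g + p) + F p, ⟨m, hm, ?_⟩, ⟨m, hm, ?_⟩, ⟨m, hm, ?_⟩⟩
      · show m (g + p) = m (g + p) + F p + F p
        rw [add_assoc, vadd, add_zero]
      · exact (aux q m1).symm
      · exact (aux r m2).symm) (by
      intro τ
      by_contra hcon
      push Not at hcon
      obtain ⟨ω, hω, h1⟩ := glue hB hL hR hF (fun p hp => hcon ⟨p, hp⟩)
      obtain ⟨p, hp, h2⟩ := hno ω hω
      exact h2 (h1 p hp))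
  set E := Submodule.span (ZMod 2) {x' + y', x' + z', x' + w'} with hE
  have e1 : x' + y' ∈ E := Submodule.subset_span (by simp)
  have e2 : x' + z' ∈ E := Submodule.subset_span (by simp)
  have e3 : x' + w' ∈ E := Submodule.subset_span (by simp)
  have dbl : ∀ s t : Dl V, x' + s ∈ E → x' + t ∈ E → s + t ∈ E := by
    intro s t hs ht
    have h := E.add_mem hs ht
    have e4 : x' + s + (x' + t) = s + t := by
      have : x' + s + (x' + t) = s + t + (x' + x') := by abel
      rw [this, vadd, add_zero]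
    rwa [e4] at h
  have x0 : x' + x' ∈ E := by rw [vadd]; exact E.zero_mem
  -- three points of `c i` whose differences are in `E`
  have three : ∀ (i : P) (a b d : Dl V), x' + a ∈ E → x' + b ∈ E → x' + d ∈ E → a ≠ b → a ≠ d →
      b ≠ d → c i a → c i b → c i d → ∀ f, In B (g + i) f → f ∈ E := by
    intro i a b d ha hb hd nab nad nbd ca cb cd f hf
    have ct : c i (a + f) := by
      have h := ca.add hf
      have e4 : a + F i + f = a + f + F i := by abel
      rwa [e4] at h
    have back : ∀ s, a + f = s → f = a + s := by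
      rintro _ rfl
      rw [← add_assoc, vadd, zero_add]
    rcases small i a b d (a + f) ca cb cd ct nab nad nbd with h | h | h | h
    · rw [back _ h, vadd]; exact E.zero_mem
    · rw [back _ h]; exact dbl _ _ ha hb
    · rw [back _ h]; exact dbl _ _ ha hd
    · rw [back _ h]
      have : a + (a + b + d) = b + d := by rw [← add_assoc, ← add_assoc, vadd, zero_add]
      rw [this]
      exact dbl _ _ hb hd
  have inE : ∀ p ∈ P, ∀ f, In B (g + p) f → f ∈ E := by
    intro p hp
    rcases hall ⟨p, hp⟩ with ⟨h1, h2, h3⟩ | ⟨h1, h2, h3⟩ | ⟨h1, h2, h3⟩ | ⟨h1, h2, h3⟩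
    · exact three ⟨p, hp⟩ _ _ _ x0 e1 e2 nxy nxz nyz h1 h2 h3
    · exact three ⟨p, hp⟩ _ _ _ x0 e1 e3 nxy nxw nyw h1 h2 h3
    · exact three ⟨p, hp⟩ _ _ _ x0 e2 e3 nxz nxw nzw h1 h2 h3
    · exact three ⟨p, hp⟩ _ _ _ e1 e2 e3 nyz nyw nzw h1 h2 h3
  have gE : ∀ ω ∈ B, ω g ∈ E := by
    intro ω hω
    exact inE 0 P.zero_mem _ ⟨ω, hω, by rw [add_zero]⟩
  have hle : vals B p0 ≤ E := by
    rintro _ ⟨ω, hω, rfl⟩
    have h1 := E.add_mem (gE ω hω) (inE p0 hp0 _ ⟨ω, hω, rfl⟩)
    rw [map_add, ← add_assoc, vadd, zero_add] at h1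
    exact h1
  have heq : vals B p0 = E := le_antisymm hle (span_le_vals hR0 hle)
  refine ⟨fun ω hω => ?_, _, _, _, heq⟩
  rw [heq]
  exact gE ω hω

/-- change of basis -/
theorem span_change (x y z : V) (t : ZMod 2 × ZMod 2 × ZMod 2) (ht : t ≠ 0) :
    ∃ u v, Submodule.span (ZMod 2) {t.1 • x + t.2.1 • y + t.2.2 • z, u, v} =
      Submodule.span (ZMod 2) {x, y, z} := by
  obtain ⟨α, β, γ⟩ := t
  have hx : x ∈ Submodule.span (ZMod 2) {x, y, z} := Submodule.subset_span (by simp)
  have hy : y ∈ Submodule.span (ZMod 2) {x, y, z} := Submodule.subset_span (by simp)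
  have hz : z ∈ Submodule.span (ZMod 2) {x, y, z} := Submodule.subset_span (by simp)
  have hp : α • x + β • y + γ • z ∈ Submodule.span (ZMod 2) {x, y, z} :=
    Submodule.add_mem _ (Submodule.add_mem _ (Submodule.smul_mem _ _ hx)
      (Submodule.smul_mem _ _ hy)) (Submodule.smul_mem _ _ hz)
  show ∃ u v, Submodule.span (ZMod 2) {α • x + β • y + γ • z, u, v} =
      Submodule.span (ZMod 2) {x, y, z}
  rcases z01 α with rfl | rfl
  · rcases z01 β with rfl | rfl
    · rcases z01 γ with rfl | rfl
      · exact absurd rfl ht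
      · refine ⟨x, y, ?_⟩
        rw [zero_smul, zero_smul, zero_add, zero_add, one_smul]
        congr 1
        ext v
        simp only [Set.mem_insert_iff, Set.mem_singleton_iff]
        tauto
    · refine ⟨x, z, le_antisymm (Submodule.span_le.2 ?_) (Submodule.span_le.2 ?_)⟩
      · rintro v (rfl | rfl | rfl)
        · exact hp
        · exact hx
        · exact hz
      · rintro v (rfl | rfl | rfl)
        · exact Submodule.subset_span (by simp)
        · have h1 : (0 : ZMod 2) • x + (1 : ZMod 2) • v + γ • z + γ • z = v := by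
            rw [zero_smul, zero_add, one_smul, add_assoc, vadd, add_zero]
          have h2 : (0 : ZMod 2) • x + (1 : ZMod 2) • v + γ • z + γ • z ∈
              Submodule.span (ZMod 2) {(0 : ZMod 2) • x + (1 : ZMod 2) • v + γ • z, x, z} :=
            Submodule.add_mem _ (Submodule.subset_span (Set.mem_insert _ _))
              (Submodule.smul_mem _ _ (Submodule.subset_span (by simp)))
          rw [h1] at h2
          exact h2
        · exact Submodule.subset_span (by simp)
  · refine ⟨y, z, le_antisymm (Submodule.span_le.2 ?_) (Submodule.span_le.2 ?_)⟩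
    · rintro v (rfl | rfl | rfl)
      · exact hp
      · exact hy
      · exact hz
    · rintro v (rfl | rfl | rfl)
      · have h1 : (1 : ZMod 2) • v + β • y + γ • z + (β • y + γ • z) = v := by
          rw [one_smul]
          have : v + β • y + γ • z + (β • y + γ • z) = v + (β • y + β • y) + (γ • z + γ • z) := by
            abel
          rw [this, vadd, vadd, add_zero, add_zero]
        have h2 : (1 : ZMod 2) • v + β • y + γ • z + (β • y + γ • z) ∈
            Submodule.span (ZMod 2) {(1 : ZMod 2) • v + β • y + γ • z, y, z} :=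
          Submodule.add_mem _ (Submodule.subset_span (Set.mem_insert _ _))
            (Submodule.add_mem _ (Submodule.smul_mem _ _ (Submodule.subset_span (by simp)))
              (Submodule.smul_mem _ _ (Submodule.subset_span (by simp))))
        rw [h1] at h2
        exact h2
      · exact Submodule.subset_span (by simp)
      · exact Submodule.subset_span (by simp)

/-- a family all of whose values lie in a space of dimension three is local-global -/
theorem lg_of_dim_three [Finite V] {B : Fam V} (hB : EFam e B) (hL : Linked B) {a b c : Dl V}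
    (hK : ∀ ω ∈ B, ∀ v, ω v ∈ Submodule.span (ZMod 2) {a, b, c}) (x y z : V) :
    LG B (Submodule.span (ZMod 2) {x, y, z}) := by
  classical
  -- the common kernel
  have hN : ∀ n, a n = 0 → b n = 0 → c n = 0 → ∀ ω ∈ B, ω n = 0 := by
    intro n h1 h2 h3 ω hω
    ext v
    rw [(hB ω hω).symm]
    have hle : Submodule.span (ZMod 2) {a, b, c} ≤ ann n := by
      rw [Submodule.span_le]
      rintro f (rfl | rfl | rfl)
      · exact h1
      · exact h2
      · exact h3
    exact hle (hK ω hω v)
  let p : ZMod 2 × ZMod 2 × ZMod 2 → V := fun t => t.1 • x + t.2.1 • y + t.2.2 • z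
  have padd : ∀ s t, p (s + t) = p s + p t := by
    intro s t
    show (s.1 + t.1) • x + (s.2.1 + t.2.1) • y + (s.2.2 + t.2.2) • z = _
    rw [add_smul, add_smul, add_smul]
    show _ = s.1 • x + s.2.1 • y + s.2.2 • z + (t.1 • x + t.2.1 • y + t.2.2 • z)
    abel
  by_cases hcase : ∃ t, t ≠ 0 ∧ a (p t) = 0 ∧ b (p t) = 0 ∧ c (p t) = 0
  · obtain ⟨t, ht, h1, h2, h3⟩ := hcase
    obtain ⟨u, v, huv⟩ := span_change x y z t ht
    rw [← huv]
    refine lg_of_plane (LinkedOn.of hL _) ?_
    intro f hf _ _ _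
    obtain ⟨ω, hω, hωf⟩ := hf
    have h4 : f = 0 := by rw [← hωf]; exact hN _ h1 h2 h3 ω hω
    exact ⟨0, B.zero_mem, by simp [h4]⟩
  · push Not at hcase
    let Ψ : ZMod 2 × ZMod 2 × ZMod 2 → ZMod 2 × ZMod 2 × ZMod 2 :=
      fun t => (a (p t), b (p t), c (p t))
    have hinj : Function.Injective Ψ := by
      intro s t hst
      have h1 : a (p s) = a (p t) ∧ b (p s) = b (p t) ∧ c (p s) = c (p t) := by
        have := hst
        simp only [Ψ, Prod.mk.injEq] at this
        exact this
      by_contra hne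
      have hne' : s + t ≠ 0 := by
        intro h
        apply hne
        have e1 : s.1 + t.1 = 0 := congrArg Prod.fst h
        have e2 : s.2.1 + t.2.1 = 0 := congrArg (fun q => q.2.1) h
        have e3 : s.2.2 + t.2.2 = 0 := congrArg (fun q => q.2.2) h
        exact Prod.ext (CharTwo.add_eq_zero.1 e1) (Prod.ext (CharTwo.add_eq_zero.1 e2)
          (CharTwo.add_eq_zero.1 e3))
      refine hcase (s + t) hne' ?_ ?_ ?_
      · rw [padd, map_add, h1.1, zadd]
      · rw [padd, map_add, h1.2.1, zadd]
      · rw [padd, map_add, h1.2.2, zadd]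
    have hsurj : Function.Surjective Ψ := Finite.surjective_of_injective hinj
    have hrep : ∀ v, ∃ t, a (v + p t) = 0 ∧ b (v + p t) = 0 ∧ c (v + p t) = 0 := by
      intro v
      obtain ⟨t, ht⟩ := hsurj (a v, b v, c v)
      simp only [Ψ, Prod.mk.injEq] at ht
      refine ⟨t, ?_, ?_, ?_⟩
      · rw [map_add, ht.1, zadd]
      · rw [map_add, ht.2.1, zadd]
      · rw [map_add, ht.2.2, zadd]
    -- the vector `p₁`
    obtain ⟨t1, ht1, hp1⟩ : ∃ t1, t1 ≠ 0 ∧ ∀ ω ∈ B, ω (p t1) = 0 → ω e = 0 := by
      obtain ⟨t, h1, h2, h3⟩ := hrep e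
      have h4 : ∀ ω ∈ B, ω e = ω (p t) := by
        intro ω hω
        have := hN _ h1 h2 h3 ω hω
        rw [map_add] at this
        exact Pool.Agent.W622.ETC.add_eq_zero'.1 this
      by_cases ht : t = 0
      · refine ⟨(1, 0, 0), by decide, fun ω hω _ => ?_⟩
        rw [h4 ω hω, ht]
        show ω ((0 : ZMod 2) • x + (0 : ZMod 2) • y + (0 : ZMod 2) • z) = 0
        simp
      · exact ⟨t, ht, fun ω hω h => (h4 ω hω).trans h⟩
    obtain ⟨u, v, huv⟩ := span_change x y z t1 ht1
    have halt : ∀ ω ∈ B, ω (p t1) = 0 → ∀ s, ω s s = 0 := by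
      intro ω hω h s
      rw [(hB ω hω).sq, (hB ω hω).symm, hp1 ω hω h]
      rfl
    have hkill : ∀ η ∈ B, η (p t1) = 0 → η u v = 0 → η u = 0 ∧ η v = 0 := by
      intro η hη h1 h2
      have aux : ∀ s, η s (p t1) = 0 → η s u = 0 → η s v = 0 → η s = 0 := by
        intro s e1 e2 e3
        ext w
        obtain ⟨t, a1, a2, a3⟩ := hrep w
        have h3 : η (w + p t) = 0 := hN _ a1 a2 a3 η hη
        have h4 : η s (w + p t) = 0 := by
          rw [(hB η hη).symm, h3]; rfl
        have h5 : p t ∈ Submodule.span (ZMod 2) {t1.1 • x + t1.2.1 • y + t1.2.2 • z, u, v} := by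
          rw [huv]
          exact Submodule.mem_span_triple.2 ⟨t.1, t.2.1, t.2.2, rfl⟩
        obtain ⟨s1, s2, s3, h6⟩ := Submodule.mem_span_triple.1 h5
        have h7 : η s (p t) = 0 := by
          rw [← h6, map_add, map_add, map_smul, map_smul, map_smul]
          have e1' : η s (t1.1 • x + t1.2.1 • y + t1.2.2 • z) = 0 := e1
          rw [e1', e2, e3]
          simp
        rw [map_add, h7, add_zero] at h4
        exact h4
      refine ⟨aux u ?_ (halt η hη h1 u) h2, aux v ?_ ?_ (halt η hη h1 v)⟩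
      · rw [(hB η hη).symm, h1]; rfl
      · rw [(hB η hη).symm, h1]; rfl
      · rw [(hB η hη).symm]; exact h2
    have hC2 : C2 B (p t1) (p t1) u v := by
      intro ω₁ h1 ω₂ h2 k1 k2
      rcases z01 (ω₁ u v) with a1 | a1
      · exact Or.inl ⟨k1, hkill ω₁ h1 k1 a1⟩
      · rcases z01 (ω₂ u v) with a2 | a2
        · exact Or.inr (Or.inl ⟨k2, hkill ω₂ h2 k2 a2⟩)
        · refine Or.inr (Or.inr ⟨k1.trans k2.symm, ?_⟩)
          have h3 := hkill (ω₁ + ω₂) (B.add_mem h1 h2) (by
            rw [LinearMap.add_apply, k1, k2, add_zero]) (by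
            rw [LinearMap.add_apply, LinearMap.add_apply, a1, a2]; rfl)
          rw [LinearMap.add_apply, LinearMap.add_apply] at h3
          exact ⟨Pool.Agent.W622.ETC.add_eq_zero'.1 h3.1, Pool.Agent.W622.ETC.add_eq_zero'.1 h3.2⟩
    have hpl : PlaneAt B (p t1) u v := plane_of_small hL (Or.inr (Or.inl hC2))
    rw [← huv]
    exact lg_of_plane (LinkedOn.of hL _) hpl

end

end Pool.Agent.K3h25.ET
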