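import Pool.Agent.K3h25.ET.Elem
import Pool.Agent.TH188.ET.FieldSmall
import Pool.Agent.HP778.QS.Field

/-! The elements with value groups of index greater than four: structures and fields which are not
of elementary type. -/

set_option autoImplicit false

namespace Pool.Agent.K3h25.ET

open Pool.Agent.H315R3.ETC Pool.Agent.TH188.ET Pool.Agent.TH673.VG Pool.Agent.TH188.ETF
open Pool.Agent.HP778.QS

universe u v

/-- the elements with value groups of index greater than four -/
theorem large_of_not_elem {S : QData} (hS : IsQuat S) (hfin : Finite S.G) {B : Type v}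
    [AddCommGroup B] (hB : ∀ b : B, b + b = 0) (β : S.G → S.G → B)
    (hmul : ∀ a b c, β a (b * c) = β a b + β a c)
    (hiff : ∀ a b c d, β a b = β c d ↔ S.q a b = S.q c d) (hne : ¬ Elem S) :
    Nat.card S.G < 4 * {a : S.G | 4 < (D hS a).index}.ncard ∧
      ∀ W : Subgroup S.G, W ≠ ⊤ → 2 ≤ {a : S.G | a ∉ W ∧ 4 < (D hS a).index}.ncard := by
  refine ⟨?_, fun W hW => ?_⟩
  · by_contra h
    exact hne (elem_of_card S hS hfin hB β hmul hiff (by omega))
  · by_contra h
    refine hne (elem_of_subgroup S hS hfin hB β hmul hiff W hW ?_)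
    intro a b ha hb ha' hb'
    have h1 : {a : S.G | a ∉ W ∧ 4 < (D hS a).index}.ncard ≤ 1 := by omega
    exact (Set.ncard_le_one (Set.toFinite _)).1 h1 a ⟨ha, ha'⟩ b ⟨hb, hb'⟩

/-- the structure of a field is additive -/
theorem additive_of_structure {F : Type u} [Field F] (h2 : (2 : F) ≠ 0) {S : QData}
    (hS : IsStructureOf F S) : ∃ β : S.G → S.G → B2 F,
      (∀ a b c, β a (b * c) = β a b + β a c) ∧
        ∀ a b c d, β a b = β c d ↔ S.q a b = S.q c d := by
  obtain ⟨φ, hs, hk, hn, h0, hq⟩ := hS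
  have hinv : ∀ a b a' b' : Fˣ, φ a = φ a' → φ b = φ b' → bq h2 a b = bq h2 a' b' := by
    intro a b a' b' h1 h3
    rw [bq_eq_iff]
    exact qiso_of_phi h2 hk h1 h3
  choose r hr using hs
  refine ⟨fun g h => bq h2 (r g) (r h), ?_, ?_⟩
  · intro g h k
    show bq h2 (r g) (r (h * k)) = bq h2 (r g) (r h) + bq h2 (r g) (r k)
    rw [← bq_mul]
    apply hinv _ _ _ _ rfl
    rw [map_mul, hr, hr, hr]
  · intro g h k l
    show bq h2 (r g) (r h) = bq h2 (r k) (r l) ↔ _
    rw [bq_eq_iff]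
    have := hq (r g) (r h) (r k) (r l)
    rw [hr, hr, hr, hr] at this
    exact this.symm

/-- the square classes with norm groups of index greater than four -/
theorem large_of_field {F : Type u} [Field F] (h2 : (2 : F) ≠ 0) (hfin : FinSq F)
    (hne : ¬ ∃ S : QData, Elem S ∧ IsStructureOf F S) :
    (squares F).index < 4 * {x : Fˣ ⧸ squares F | ∃ a : Fˣ, (a : Fˣ ⧸ squares F) = x ∧
        4 < (normGroup a).index}.ncard ∧
      ∀ W : Subgroup Fˣ, squares F ≤ W → W ≠ ⊤ → 2 ≤ {x : Fˣ ⧸ squares F | ∃ a : Fˣ,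
        (a : Fˣ ⧸ squares F) = x ∧ a ∉ W ∧ 4 < (normGroup a).index}.ncard := by
  obtain ⟨S, hS, φ, hst, hf, hs, hker, hD, -⟩ := setup h2 hfin
  obtain ⟨f, hfb, hfa⟩ := classes hker hs
  have hq : Finite (Fˣ ⧸ squares F) := Finite.of_injective f hfb.1
  obtain ⟨β, hmul, hiff⟩ := additive_of_structure h2 hst
  obtain ⟨h1, h3⟩ := large_of_not_elem hS hf B2_add_self β hmul hiff (fun h => hne ⟨S, h, hst⟩)
  have hidx : ∀ a : Fˣ, (D hS (φ a)).index = (normGroup a).index := by
    intro a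
    rw [← hD a, Subgroup.index_comap_of_surjective _ hs]
  have hcard : (squares F).index = Nat.card S.G := by
    rw [← hker, Subgroup.index_ker, MonoidHom.range_eq_top.2 hs, Subgroup.card_top]
  refine ⟨?_, fun W hsW hW => ?_⟩
  · rw [hcard]
    refine lt_of_lt_of_le h1 (Nat.mul_le_mul_left _ ?_)
    have hsub : {a : S.G | 4 < (D hS a).index} ⊆ f '' {x : Fˣ ⧸ squares F | ∃ a : Fˣ,
        (a : Fˣ ⧸ squares F) = x ∧ 4 < (normGroup a).index} := by
      intro y hy
      obtain ⟨a, rfl⟩ := hs y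
      refine ⟨(a : Fˣ ⧸ squares F), ⟨a, rfl, ?_⟩, hfa a⟩
      rw [← hidx]
      exact hy
    exact (Set.ncard_le_ncard hsub (Set.toFinite _)).trans (Set.ncard_image_le (Set.toFinite _))
  · have hWc : (W.map φ).comap φ = W := Subgroup.comap_map_eq_self (by rw [hker]; exact hsW)
    have hWt : W.map φ ≠ ⊤ := by
      intro e
      apply hW
      rw [← hWc, e, Subgroup.comap_top]
    refine (h3 (W.map φ) hWt).trans ?_
    have hsub : {a : S.G | a ∉ W.map φ ∧ 4 < (D hS a).index} ⊆
        f '' {x : Fˣ ⧸ squares F | ∃ a : Fˣ, (a : Fˣ ⧸ squares F) = x ∧ a ∉ W ∧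
          4 < (normGroup a).index} := by
      rintro y ⟨hy1, hy2⟩
      obtain ⟨a, rfl⟩ := hs y
      refine ⟨(a : Fˣ ⧸ squares F), ⟨a, rfl, fun h => hy1 (Subgroup.mem_map_of_mem φ h), ?_⟩, hfa a⟩
      rw [← hidx]
      exact hy2
    exact (Set.ncard_le_ncard hsub (Set.toFinite _)).trans (Set.ncard_image_le (Set.toFinite _))

end Pool.Agent.K3h25.ET
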