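import Mathlib

/-! A Helly property of cosets with at most four elements. -/

set_option autoImplicit false

namespace Pool.Agent.K3h25.ET

/-- Affine sets (closed under sums of three elements) with at most four elements in a group of
exponent two, any three of which have a common point: if there is no point common to all, then for
some four points each of the sets contains three of them. -/
theorem helly {M ι : Type*} [AddCommGroup M] (h2 : ∀ m : M, m + m = 0) (c : ι → M → Prop)
    (i₀ : ι)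
    (aff : ∀ i u v w, c i u → c i v → c i w → c i (u + v + w))
    (small : ∀ i u v w t, c i u → c i v → c i w → c i t → u ≠ v → u ≠ w → v ≠ w →
      t = u ∨ t = v ∨ t = w ∨ t = u + v + w)
    (tri : ∀ i j k, ∃ u, c i u ∧ c j u ∧ c k u)
    (no : ∀ u, ∃ i, ¬ c i u) :
    ∃ x y z w : M, x ≠ y ∧ x ≠ z ∧ x ≠ w ∧ y ≠ z ∧ y ≠ w ∧ z ≠ w ∧
      ∀ i, (c i x ∧ c i y ∧ c i z) ∨ (c i x ∧ c i y ∧ c i w) ∨ (c i x ∧ c i z ∧ c i w) ∨
        (c i y ∧ c i z ∧ c i w) := by
  -- `(a + b + d) + b + d = a`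
  have back : ∀ a b d : M, (a + b + d) + b + d = a := by
    intro a b d
    have : (a + b + d) + b + d = a + (b + b) + (d + d) := by abel
    rw [this, h2, h2, add_zero, add_zero]
  obtain ⟨x₀, hx0, -, -⟩ := tri i₀ i₀ i₀
  obtain ⟨q1, hq1⟩ := no x₀
  obtain ⟨y, hy0, hy1, -⟩ := tri i₀ q1 q1
  obtain ⟨q2, hq2⟩ := no y
  obtain ⟨z, hz0, hz1, hz2⟩ := tri i₀ q1 q2
  obtain ⟨q3, hq3⟩ := no z
  have nxy : x₀ ≠ y := fun h => hq1 (h ▸ hy1)
  have nxz : x₀ ≠ z := fun h => hq1 (h ▸ hz1)
  have nyz : y ≠ z := fun h => hq2 (h ▸ hz2)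
  have hy3 : c q3 y := by
    obtain ⟨w', a1, a2, a3⟩ := tri i₀ q1 q3
    rcases small i₀ x₀ y z w' hx0 hy0 hz0 a1 nxy nxz nyz with h | h | h | h
    · exact absurd (h ▸ a2) hq1
    · exact h ▸ a3
    · exact absurd (h ▸ a3) hq3
    · exfalso
      apply hq1
      rw [h] at a2
      have := aff q1 _ _ _ a2 hy1 hz1
      rwa [back] at this
  obtain ⟨x, hx0', hx2, hx3⟩ := tri i₀ q2 q3
  have hx1 : ¬ c q1 x := by
    intro h1
    rcases small i₀ x₀ y z x hx0 hy0 hz0 hx0' nxy nxz nyz with h | h | h | h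
    · exact hq1 (h ▸ h1)
    · exact hq2 (h ▸ hx2)
    · exact hq3 (h ▸ hx3)
    · apply hq1
      rw [h] at h1
      have := aff q1 _ _ _ h1 hy1 hz1
      rwa [back] at this
  have mxy : x ≠ y := fun h => hq2 (h ▸ hx2)
  have mxz : x ≠ z := fun h => hq3 (h ▸ hx3)
  obtain ⟨w, hw1, hw2, hw3⟩ := tri q1 q2 q3
  have nxw : x ≠ w := fun h => hx1 (h ▸ hw1)
  have nyw : y ≠ w := fun h => hq2 (h ▸ hw2)
  have nzw : z ≠ w := fun h => hq3 (h ▸ hw3)
  refine ⟨x, y, z, w, mxy, mxz, nxw, nyz, nyw, nzw, fun i => ?_⟩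
  have s1 : c i y ∨ c i z := by
    obtain ⟨u, a1, a2, a3⟩ := tri i i₀ q1
    rcases small i₀ x y z u hx0' hy0 hz0 a2 mxy mxz nyz with h | h | h | h
    · exact absurd (h ▸ a3) hx1
    · exact Or.inl (h ▸ a1)
    · exact Or.inr (h ▸ a1)
    · exfalso
      apply hx1
      rw [h] at a3
      have := aff q1 _ _ _ a3 hy1 hz1
      rwa [back] at this
  have s2 : c i x ∨ c i z := by
    obtain ⟨u, a1, a2, a3⟩ := tri i i₀ q2
    rcases small i₀ x y z u hx0' hy0 hz0 a2 mxy mxz nyz with h | h | h | h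
    · exact Or.inl (h ▸ a1)
    · exact absurd (h ▸ a3) hq2
    · exact Or.inr (h ▸ a1)
    · exfalso
      apply hq2
      rw [h] at a3
      have := aff q2 _ _ _ a3 hx2 hz2
      have e : x + y + z + x + z = y := by
        have e' : x + y + z + x + z = y + (x + x) + (z + z) := by abel
        rw [e', h2, h2, add_zero, add_zero]
      rwa [e] at this
  have s3 : c i x ∨ c i y := by
    obtain ⟨u, a1, a2, a3⟩ := tri i i₀ q3
    rcases small i₀ x y z u hx0' hy0 hz0 a2 mxy mxz nyz with h | h | h | h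
    · exact Or.inl (h ▸ a1)
    · exact Or.inr (h ▸ a1)
    · exact absurd (h ▸ a3) hq3
    · exfalso
      apply hq3
      rw [h] at a3
      have := aff q3 _ _ _ a3 hx3 hy3
      have e : x + y + z + x + y = z := by
        have e' : x + y + z + x + y = z + (x + x) + (y + y) := by abel
        rw [e', h2, h2, add_zero, add_zero]
      rwa [e] at this
  have s4 : c i z ∨ c i w := by
    obtain ⟨u, a1, a2, a3⟩ := tri i q1 q2
    rcases small q1 y z w u hy1 hz1 hw1 a2 nyz nyw nzw with h | h | h | h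
    · exact absurd (h ▸ a3) hq2
    · exact Or.inl (h ▸ a1)
    · exact Or.inr (h ▸ a1)
    · exfalso
      apply hq2
      rw [h] at a3
      have := aff q2 _ _ _ a3 hz2 hw2
      rwa [back] at this
  have s5 : c i y ∨ c i w := by
    obtain ⟨u, a1, a2, a3⟩ := tri i q1 q3
    rcases small q1 y z w u hy1 hz1 hw1 a2 nyz nyw nzw with h | h | h | h
    · exact Or.inl (h ▸ a1)
    · exact absurd (h ▸ a3) hq3
    · exact Or.inr (h ▸ a1)
    · exfalso
      apply hq3
      rw [h] at a3
      have := aff q3 _ _ _ a3 hy3 hw3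
      have e : y + z + w + y + w = z := by
        have e' : y + z + w + y + w = z + (y + y) + (w + w) := by abel
        rw [e', h2, h2, add_zero, add_zero]
      rwa [e] at this
  have s6 : c i x ∨ c i w := by
    obtain ⟨u, a1, a2, a3⟩ := tri i q2 q3
    rcases small q2 x z w u hx2 hz2 hw2 a2 mxz nxw nzw with h | h | h | h
    · exact Or.inl (h ▸ a1)
    · exact absurd (h ▸ a3) hq3
    · exact Or.inr (h ▸ a1)
    · exfalso
      apply hq3
      rw [h] at a3
      have := aff q3 _ _ _ a3 hx3 hw3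
      have e : x + z + w + x + w = z := by
        have e' : x + z + w + x + w = z + (x + x) + (w + w) := by abel
        rw [e', h2, h2, add_zero, add_zero]
      rwa [e] at this
  by_cases hx : c i x
  · by_cases hy : c i y
    · rcases s4 with h | h
      · exact Or.inl ⟨hx, hy, h⟩
      · exact Or.inr (Or.inl ⟨hx, hy, h⟩)
    · exact Or.inr (Or.inr (Or.inl ⟨hx, s1.resolve_left hy, s5.resolve_left hy⟩))
  · exact Or.inr (Or.inr (Or.inr ⟨s3.resolve_left hx, s2.resolve_left hx, s6.resolve_left hx⟩))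

end Pool.Agent.K3h25.ET
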