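import Pool.Agent.TH188.ET.PlaneH
import Pool.Agent.K3h25.ET.Helly

/-! Families of forms which are local-global on a subspace. -/

set_option autoImplicit false

namespace Pool.Agent.K3h25.ET

open Pool.Agent.W622.ETG Module Pool.Agent.TH188.ETP

section
variable {V : Type} [AddCommGroup V] [Module (ZMod 2) V] {e : V}

/-- linkage for pairs of vectors of `P` -/
def LinkedOn (A : Fam V) (P : Submodule (ZMod 2) V) : Prop :=
  ∀ p ∈ P, ∀ q ∈ P, ∀ f : Dl V, In A p f → In A q f → ∃ ω ∈ A, ω p = f ∧ ω q = f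

/-- local-global on `P`: a linear map which is a value of `A` at each vector of `P` is on `P` a
member of `A` -/
def LG (A : Fam V) (P : Submodule (ZMod 2) V) : Prop :=
  ∀ F : Frm V, (∀ p ∈ P, In A p (F p)) → ∃ ω ∈ A, ∀ p ∈ P, ω p = F p

theorem LinkedOn.of {A : Fam V} (hL : Linked A) (P : Submodule (ZMod 2) V) : LinkedOn A P :=
  fun p _ q _ f hp hq => pairL hL p q f hp hq

theorem In.zero (A : Fam V) (p : V) : In A p 0 := ⟨0, A.zero_mem, rfl⟩

/-- lines are local-global -/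
theorem line {A : Fam V} {P : Submodule (ZMod 2) V} (hL : LinkedOn A P) {p q : V} (hp : p ∈ P)
    (hq : q ∈ P) {f g : Dl V} (h1 : In A p f) (h2 : In A q g) (h3 : In A (p + q) (f + g)) :
    ∃ ω ∈ A, ω p = f ∧ ω q = g := by
  obtain ⟨ω, hω, h⟩ := h3
  have e1 : f + ω p = g + ω q := by
    rw [map_add] at h
    have h4 : f + ω p + (g + ω q) = 0 := by
      have : f + ω p + (g + ω q) = f + g + (ω p + ω q) := by abel
      rw [this, h, vadd]
    exact add_eq_zero'.1 h4
  have a1 : In A p (f + ω p) := In.add h1 ⟨ω, hω, rfl⟩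
  have a2 : In A q (f + ω p) := by
    rw [e1]
    exact In.add h2 ⟨ω, hω, rfl⟩
  obtain ⟨ζ, hζ, b1, b2⟩ := hL p hp q hq _ a1 a2
  refine ⟨ζ + ω, A.add_mem hζ hω, ?_, ?_⟩
  · rw [LinearMap.add_apply, b1, add_assoc, vadd, add_zero]
  · rw [LinearMap.add_apply, b2, e1, add_assoc, vadd, add_zero]

/-- one affine plane decides -/
theorem lg_of_plane {A : Fam V} {x y z : V}
    (hL : LinkedOn A (Submodule.span (ZMod 2) {x, y, z})) (hP : PlaneAt A x y z) :
    LG A (Submodule.span (ZMod 2) {x, y, z}) := by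
  set P := Submodule.span (ZMod 2) {x, y, z} with hPdef
  have hx : x ∈ P := Submodule.subset_span (by simp)
  have hy : y ∈ P := Submodule.subset_span (by simp)
  have hz : z ∈ P := Submodule.subset_span (by simp)
  intro F hF
  obtain ⟨m, hm, m1, m2⟩ := line hL (P.add_mem hx hy) (P.add_mem hx hz)
    (hF _ (P.add_mem hx hy)) (hF _ (P.add_mem hx hz)) (by
      rw [← map_add]
      exact hF _ (P.add_mem (P.add_mem hx hy) (P.add_mem hx hz)))
  have f1 : F x + m x = F y + m y := by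
    rw [map_add, map_add] at m1
    have : F x + m x + (F y + m y) = 0 := by
      have h : F x + m x + (F y + m y) = (F x + F y) + (m x + m y) := by abel
      rw [h, m1, vadd]
    exact add_eq_zero'.1 this
  have f2 : F x + m x = F z + m z := by
    rw [map_add, map_add] at m2
    have : F x + m x + (F z + m z) = 0 := by
      have h : F x + m x + (F z + m z) = (F x + F z) + (m x + m z) := by abel
      rw [h, m2, vadd]
    exact add_eq_zero'.1 this
  have ix : In A x (F x + m x) := (hF x hx).add ⟨m, hm, rfl⟩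
  have iy : In A y (F x + m x) := by rw [f1]; exact (hF y hy).add ⟨m, hm, rfl⟩
  have iz : In A z (F x + m x) := by rw [f2]; exact (hF z hz).add ⟨m, hm, rfl⟩
  have iw : In A (x + y + z) (F x + m x) := by
    have h := (hF _ (P.add_mem (P.add_mem hx hy) hz)).add ⟨m, hm, rfl⟩
    have h3 : F (x + y + z) + m (x + y + z) = F x + m x := by
      have : F (x + y + z) + m (x + y + z) = (F x + m x) + (F y + m y) + (F z + m z) := by
        rw [map_add, map_add, map_add, map_add]; abel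
      rw [this, ← f1, ← f2, vadd, zero_add]
    rwa [h3] at h
  obtain ⟨ω, hω, o1, o2, o3⟩ := hP _ ix iy iz iw
  refine ⟨ω + m, A.add_mem hω hm, fun p hp => ?_⟩
  have key : ∀ p ∈ P, (ω + m) p = F p := by
    intro p hp
    refine LinearMap.eqOn_span (f := ω + m) (g := F) (s := {x, y, z}) ?_ hp
    rintro v (rfl | rfl | rfl)
    · rw [LinearMap.add_apply, o1, add_assoc, vadd, add_zero]
    · rw [LinearMap.add_apply, o2, f1, add_assoc, vadd, add_zero]
    · rw [LinearMap.add_apply, o3, f2, add_assoc, vadd, add_zero]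
  exact key p hp

theorem plane_of_lg [Finite V] {A : Fam V} {x y z : V}
    (h : LG A (Submodule.span (ZMod 2) {x, y, z})) : PlaneAt A x y z := by
  intro f fx fy fz fw
  by_cases hf : f = 0
  · exact ⟨0, A.zero_mem, by simp [hf]⟩
  have nz : ∀ p, In A p f → p ≠ 0 := by
    rintro _ ⟨ω, -, hω⟩ rfl
    rw [map_zero] at hω
    exact hf hω.symm
  have hn : x ∉ Submodule.span (ZMod 2) {x + y, x + z} := by
    intro hx
    obtain ⟨a, b, hab⟩ := Submodule.mem_span_pair.1 hx
    rcases z01 a with rfl | rfl <;> rcases z01 b with rfl | rfl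
    · rw [zero_smul, zero_smul, add_zero] at hab
      exact nz _ fx hab.symm
    · rw [zero_smul, one_smul, zero_add] at hab
      exact nz _ fz (left_eq_add.1 hab.symm)
    · rw [zero_smul, one_smul, add_zero] at hab
      exact nz _ fy (left_eq_add.1 hab.symm)
    · rw [one_smul, one_smul] at hab
      apply nz _ fw
      have : x + y + z = (x + y + (x + z)) + x + (x + x) + (x + x) + (x + x) := by
        rw [hab]
        have h1 : x + y + (x + z) = x := hab
        have h2 : x + y + z = x + y + (x + z) + x := by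
          have : x + y + (x + z) + x = x + y + z + (x + x) := by abel
          rw [this, vadd, add_zero]
        rw [h2, h1, vadd]
        simp [vadd]
      rw [this, hab, vadd]
      simp [vadd]
  obtain ⟨φ, hφ1, hφ2⟩ := Submodule.exists_le_ker_of_notMem hn
  have φx : φ x = 1 := z_ne hφ1
  have φxy : φ (x + y) = 0 := hφ2 (Submodule.subset_span (by simp))
  have φxz : φ (x + z) = 0 := hφ2 (Submodule.subset_span (by simp))
  have φy : φ y = 1 := by
    rw [map_add, φx] at φxy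
    exact (CharTwo.add_eq_zero.1 φxy).symm
  have φz : φ z = 1 := by
    rw [map_add, φx] at φxz
    exact (CharTwo.add_eq_zero.1 φxz).symm
  obtain ⟨ω, hω, h1⟩ := h (φ.smulRight f) (by
    intro p hp
    obtain ⟨a, b, c, rfl⟩ := Submodule.mem_span_triple.1 hp
    rw [LinearMap.smulRight_apply]
    rcases z01 a with rfl | rfl <;> rcases z01 b with rfl | rfl <;> rcases z01 c with rfl | rfl <;>
      simp only [zero_smul, one_smul, zero_add, add_zero, map_add, map_zero, φx, φy, φz]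
    · exact In.zero A _
    · exact fz
    · exact fy
    · rw [show (1 : ZMod 2) + 1 = 0 from rfl, zero_smul]; exact In.zero A _
    · exact fx
    · rw [show (1 : ZMod 2) + 1 = 0 from rfl, zero_smul]; exact In.zero A _
    · rw [show (1 : ZMod 2) + 1 = 0 from rfl, zero_smul]; exact In.zero A _
    · rw [show (1 : ZMod 2) + 1 + 1 = 1 from rfl, one_smul]; exact fw)
  refine ⟨ω, hω, ?_, ?_, ?_⟩
  · rw [h1 x (Submodule.subset_span (by simp)), LinearMap.smulRight_apply, φx, one_smul]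
  · rw [h1 y (Submodule.subset_span (by simp)), LinearMap.smulRight_apply, φy, one_smul]
  · rw [h1 z (Submodule.subset_span (by simp)), LinearMap.smulRight_apply, φz, one_smul]

/-- the localized form of `plane_of_R2` -/
theorem plane_of_R2_on [Finite V] {A : Fam V} {P : Submodule (ZMod 2) V} (hL : LinkedOn A P)
    (hR : ∀ p ∈ P, R2 A p) {x y z : V} (hx : x ∈ P) (hy : y ∈ P) (hz : z ∈ P) :
    PlaneAt A x y z := by
  obtain ⟨ρ, hρ⟩ := P.subtype.exists_leftInverse_of_injective (Submodule.ker_subtype P)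
  have hρ' : ∀ p : V, p ∈ P → (ρ p : V) = p := by
    intro p hp
    have := LinearMap.congr_fun hρ ⟨p, hp⟩
    exact congrArg Subtype.val this
  let π : V →ₗ[ZMod 2] V := P.subtype ∘ₗ ρ
  have hπ : ∀ v, π v ∈ P := fun v => (ρ v).2
  have hπ' : ∀ p ∈ P, π p = p := fun p hp => hρ' p hp
  let A' : Fam V := A.map (LinearMap.lcomp (ZMod 2) (Dl V) π)
  have mem : ∀ {ω}, ω ∈ A → ω ∘ₗ π ∈ A' := fun {ω} hω => ⟨ω, hω, rfl⟩
  have mem' : ∀ {η}, η ∈ A' → ∃ ω ∈ A, η = ω ∘ₗ π := by
    rintro _ ⟨ω, hω, rfl⟩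
    exact ⟨ω, hω, rfl⟩
  have inn : ∀ {p f}, p ∈ P → In A p f → In A' p f := by
    rintro p f hp ⟨ω, hω, rfl⟩
    refine ⟨ω ∘ₗ π, mem hω, ?_⟩
    rw [LinearMap.comp_apply, hπ' p hp]
  have hL' : Linked A' := by
    intro ω' hω' η' hη' a c hac
    obtain ⟨ω, hω, rfl⟩ := mem' hω'
    obtain ⟨η, hη, rfl⟩ := mem' hη'
    obtain ⟨ζ, hζ, h1, h2⟩ := hL (π a) (hπ a) (π c) (hπ c) (ω (π a)) ⟨ω, hω, rfl⟩
      ⟨η, hη, hac.symm⟩
    exact ⟨ζ ∘ₗ π, mem hζ, h1, h2⟩
  have hR' : ∀ v, R2 A' v := by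
    intro v ω₁ h1 ω₂ h2 ω₃ h3
    obtain ⟨o1, g1, rfl⟩ := mem' h1
    obtain ⟨o2, g2, rfl⟩ := mem' h2
    obtain ⟨o3, g3, rfl⟩ := mem' h3
    exact hR (π v) (hπ v) o1 g1 o2 g2 o3 g3
  intro f fx fy fz fw
  obtain ⟨ω', hω', h1, h2, h3⟩ := plane_of_R2 hL' (hR' x) (hR' y) (hR' z) (hR' (x + y + z)) f
    (inn hx fx) (inn hy fy) (inn hz fz) (inn (P.add_mem (P.add_mem hx hy) hz) fw)
  obtain ⟨ω, hω, rfl⟩ := mem' hω'
  refine ⟨ω, hω, ?_, ?_, ?_⟩
  · rwa [LinearMap.comp_apply, hπ' x hx] at h1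
  · rwa [LinearMap.comp_apply, hπ' y hy] at h2
  · rwa [LinearMap.comp_apply, hπ' z hz] at h3

/-- extension by one value -/
theorem glue [Finite V] {B : Fam V} (hB : EFam e B) (hL : Linked B) {x y z g : V}
    (hR : ∀ p ∈ Submodule.span (ZMod 2) {x, y, z}, R2 B (g + p)) {F : Frm V}
    (hF : ∀ p ∈ Submodule.span (ZMod 2) {x, y, z}, In B p (F p)) {τ : Dl V}
    (hτ : ∀ p ∈ Submodule.span (ZMod 2) {x, y, z}, In B (g + p) (τ + F p)) :
    ∃ ω ∈ B, ∀ p ∈ Submodule.span (ZMod 2) {x, y, z}, ω p = F p := by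
  set P := Submodule.span (ZMod 2) {x, y, z} with hPdef
  have hx : x ∈ P := Submodule.subset_span (by simp)
  have hy : y ∈ P := Submodule.subset_span (by simp)
  have hz : z ∈ P := Submodule.subset_span (by simp)
  have hLT : LinkedOn B ⊤ := LinkedOn.of hL ⊤
  obtain ⟨m, hm, m0⟩ := hτ 0 P.zero_mem
  rw [map_zero, add_zero, add_zero] at m0
  set B0 : Fam V := res B (ann g) with hB0
  have mem0 : ∀ {ω}, ω ∈ B0 ↔ ω ∈ B ∧ ω g = 0 := fun {ω} => mem_res_ann hB
  -- `B0` is linked on `P`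
  have hL0 : LinkedOn B0 P := by
    rintro p hp q hq f ⟨ω, hω, o1⟩ ⟨η, hη, o2⟩
    obtain ⟨hωB, hωg⟩ := mem0.1 hω
    obtain ⟨hηB, hηg⟩ := mem0.1 hη
    obtain ⟨ζ, hζ, h1, h2⟩ := pairL hL p q f ⟨ω, hωB, o1⟩ ⟨η, hηB, o2⟩
    have b1 : In B (g + p) (ζ g) := by
      refine ⟨ζ + ω, B.add_mem hζ hωB, ?_⟩
      rw [LinearMap.add_apply, map_add, map_add, h1, hωg, o1, zero_add, add_assoc, vadd, add_zero]
    have b2 : In B (g + q) (ζ g) := by
      refine ⟨ζ + η, B.add_mem hζ hηB, ?_⟩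
      rw [LinearMap.add_apply, map_add, map_add, h2, hηg, o2, zero_add, add_assoc, vadd, add_zero]
    have e3 : g + (g + p) + (g + q) = g + (p + q) := by
      have : g + (g + p) + (g + q) = (g + g) + (g + (p + q)) := by abel
      rw [this, vadd, zero_add]
    have b3 : In B (g + (g + p) + (g + q)) (ζ g) := by
      refine ⟨ζ, hζ, ?_⟩
      rw [e3, map_add, map_add, h1, h2, vadd, add_zero]
    obtain ⟨θ, hθ, t1, t2, t3⟩ := plane_of_R2 hL
      (by have := hR 0 P.zero_mem; rwa [add_zero] at this) (hR p hp) (hR q hq)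
      (by rw [e3]; exact hR _ (P.add_mem hp hq)) (ζ g) ⟨ζ, hζ, rfl⟩ b1 b2 b3
    have t4 : θ p = 0 := by
      rw [map_add, t1] at t2
      exact left_eq_add.1 t2.symm
    have t5 : θ q = 0 := by
      rw [map_add, t1] at t3
      exact left_eq_add.1 t3.symm
    refine ⟨ζ + θ, mem0.2 ⟨B.add_mem hζ hθ, ?_⟩, ?_, ?_⟩
    · rw [LinearMap.add_apply, t1, vadd]
    · rw [LinearMap.add_apply, t4, add_zero, h1]
    · rw [LinearMap.add_apply, t5, add_zero, h2]
  have hR0 : ∀ p ∈ P, R2 B0 p := by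
    intro p hp ω₁ h1 ω₂ h2 ω₃ h3
    obtain ⟨a1, b1⟩ := mem0.1 h1
    obtain ⟨a2, b2⟩ := mem0.1 h2
    obtain ⟨a3, b3⟩ := mem0.1 h3
    have := hR p hp ω₁ a1 ω₂ a2 ω₃ a3
    simp only [map_add, b1, b2, b3, zero_add] at this
    exact this
  have hLG : LG B0 P := lg_of_plane hL0 (plane_of_R2_on hL0 hR0 hx hy hz)
  obtain ⟨ω, hω, h1⟩ := hLG (F + m) (by
    intro p hp
    obtain ⟨ω, hω, o1, o2⟩ := line hLT (p := g) (q := p) trivial trivial (f := 0)
      (g := F p + m p) (In.zero B g) ((hF p hp).add ⟨m, hm, rfl⟩) (by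
        have h := (hτ p hp).add ⟨m, hm, rfl⟩
        rw [map_add m g p, m0] at h
        have e4 : τ + F p + (τ + m p) = 0 + (F p + m p) := by
          have : τ + F p + (τ + m p) = (τ + τ) + (F p + m p) := by abel
          rw [this, vadd]
        rwa [e4] at h)
    exact ⟨ω, mem0.2 ⟨hω, o1⟩, by rw [o2, LinearMap.add_apply]⟩)
  refine ⟨ω + m, B.add_mem (mem0.1 hω).1 hm, fun p hp => ?_⟩
  rw [LinearMap.add_apply, h1 p hp, LinearMap.add_apply, add_assoc, vadd, add_zero]

end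

end Pool.Agent.K3h25.ET
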