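import Pool.Agent.K3h25.ET.Fail

/-! The vectors with many values generate, if a linked family is not local-global on a subspace of
dimension three. -/

set_option autoImplicit false

namespace Pool.Agent.K3h25.ET

open Pool.Agent.W622.ETG Module Pool.Agent.TH188.ETP

section
variable {V : Type} [AddCommGroup V] [Module (ZMod 2) V] {e : V}

/-- adjusting a generator -/
theorem span_adjust (x y z : V) (φ : V →ₗ[ZMod 2] ZMod 2) (hx : φ x = 1) :
    ∃ y', φ y' = 1 ∧ Submodule.span (ZMod 2) {x, y', z} = Submodule.span (ZMod 2) {x, y, z} := by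
  rcases z01 (φ y) with h | h
  · refine ⟨y + x, by rw [map_add, h, hx]; rfl, le_antisymm (Submodule.span_le.2 ?_)
      (Submodule.span_le.2 ?_)⟩
    · rintro v (rfl | rfl | rfl)
      · exact Submodule.subset_span (by simp)
      · exact Submodule.add_mem _ (Submodule.subset_span (by simp))
          (Submodule.subset_span (by simp))
      · exact Submodule.subset_span (by simp)
    · rintro v (rfl | rfl | rfl)
      · exact Submodule.subset_span (by simp)
      · have h1 : v + x + x ∈ Submodule.span (ZMod 2) {x, v + x, z} :=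
          Submodule.add_mem _ (Submodule.subset_span (by simp)) (Submodule.subset_span (by simp))
        rw [add_assoc, vadd, add_zero] at h1
        exact h1
      · exact Submodule.subset_span (by simp)
  · exact ⟨y, h, rfl⟩

/-- local-global, if the vectors outside a hyperplane have at most four values -/
theorem lg_of_functional [Finite V] {B : Fam V} (hL : Linked B) (x y z : V)
    (φ : V →ₗ[ZMod 2] ZMod 2) (hφ : ∀ v, φ v = 1 → R2 B v) (hx : φ x = 1) :
    LG B (Submodule.span (ZMod 2) {x, y, z}) := by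
  obtain ⟨y', hy', e1⟩ := span_adjust x y z φ hx
  obtain ⟨z', hz', e2⟩ := span_adjust x z y' φ hx
  have e3 : Submodule.span (ZMod 2) {x, y', z'} = Submodule.span (ZMod 2) {x, y, z} := by
    have h1 : ({x, y', z'} : Set V) = {x, z', y'} := by
      ext v; simp only [Set.mem_insert_iff, Set.mem_singleton_iff]; tauto
    have h2 : ({x, y', z} : Set V) = {x, z, y'} := by
      ext v; simp only [Set.mem_insert_iff, Set.mem_singleton_iff]; tauto
    rw [h1, e2, ← h2, e1]
  rw [← e3]
  refine lg_of_plane (LinkedOn.of hL _) (plane_of_R2 hL (hφ _ hx) (hφ _ hy') (hφ _ hz') (hφ _ ?_))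
  rw [map_add, map_add, hx, hy', hz']
  rfl

/-- the three vectors lie in each subspace which contains all vectors with many values -/
theorem mem_of_not_lg [Finite V] {B : Fam V} (hL : Linked B) {x y z : V}
    (hfail : ¬ LG B (Submodule.span (ZMod 2) {x, y, z})) (W : Submodule (ZMod 2) V)
    (hW : ∀ v, ¬ R2 B v → v ∈ W) : Submodule.span (ZMod 2) {x, y, z} ≤ W := by
  have key : ∀ a b c : V, ({a, b, c} : Set V) = {x, y, z} → a ∈ W := by
    intro a b c habc
    by_contra ha
    obtain ⟨φ, h1, h2⟩ := Submodule.exists_le_ker_of_notMem ha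
    apply hfail
    rw [← habc]
    refine lg_of_functional hL a b c φ (fun v hv => ?_) (z_ne h1)
    by_contra hR
    have h3 : φ v = 0 := h2 (hW v hR)
    rw [h3] at hv
    exact absurd hv (by decide)
  rw [Submodule.span_le]
  rintro v (rfl | rfl | rfl)
  · exact key v y z rfl
  · exact key v x z (by ext u; simp only [Set.mem_insert_iff, Set.mem_singleton_iff]; tauto)
  · exact key v x y (by ext u; simp only [Set.mem_insert_iff, Set.mem_singleton_iff]; tauto)

theorem R2.zero (B : Fam V) : R2 B 0 := fun ω _ _ _ _ _ => Or.inl (map_zero ω)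

/-- most cosets contain a vector with many values -/
theorem exists_K [Finite V] {B : Fam V} (hB : EFam e B) (hL : Linked B) {x y z : V}
    (hfail : ¬ LG B (Submodule.span (ZMod 2) {x, y, z})) :
    ∃ K : Submodule (ZMod 2) V, K ≠ ⊤ ∧
      ∀ g, g ∉ K → ∃ p ∈ Submodule.span (ZMod 2) {x, y, z}, ¬ R2 B (g + p) := by
  set P := Submodule.span (ZMod 2) {x, y, z} with hPdef
  have hx : x ∈ P := Submodule.subset_span (by simp)
  have hy : y ∈ P := Submodule.subset_span (by simp)
  have hz : z ∈ P := Submodule.subset_span (by simp)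
  obtain ⟨p0, hp0, hR0⟩ : ∃ p0 ∈ P, ¬ R2 B p0 := by
    by_contra hcon
    push Not at hcon
    exact hfail (lg_of_plane (LinkedOn.of hL _)
      (plane_of_R2_on (LinkedOn.of hL P) hcon hx hy hz))
  by_cases hg : ∃ g0, ∀ p ∈ P, R2 B (g0 + p)
  · obtain ⟨g0, hg0⟩ := hg
    refine ⟨below B (vals B p0), fun hK => ?_, fun g hgK => ?_⟩
    · obtain ⟨-, a, b, c, habc⟩ := good_coset hB hL hfail hp0 hR0 hg0
      refine hfail (lg_of_dim_three hB hL (a := a) (b := b) (c := c) (fun ω hω v => ?_) x y z)
      rw [← habc]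
      have hv : v ∈ below B (vals B p0) := by rw [hK]; exact Submodule.mem_top
      exact hv ω hω
    · by_contra hcon
      push Not at hcon
      exact hgK (good_coset hB hL hfail hp0 hR0 hcon).1
  · push Not at hg
    refine ⟨⊥, fun hbt => ?_, fun g _ => hg g⟩
    have h1 : p0 ∈ (⊥ : Submodule (ZMod 2) V) := by rw [hbt]; exact Submodule.mem_top
    rw [Submodule.mem_bot] at h1
    rw [h1] at hR0
    exact hR0 (R2.zero B)

/-- the vectors with many values generate -/
theorem top_of_not_lg [Finite V] {B : Fam V} (hB : EFam e B) (hL : Linked B) {x y z : V}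
    (hfail : ¬ LG B (Submodule.span (ZMod 2) {x, y, z})) (W : Submodule (ZMod 2) V)
    (hW : ∀ v, ¬ R2 B v → v ∈ W) : W = ⊤ := by
  obtain ⟨K, hK, h⟩ := exists_K hB hL hfail
  have hPW := mem_of_not_lg hL hfail W hW
  have h1 : ∀ g, g ∉ K → g ∈ W := by
    intro g hg
    obtain ⟨p, hp, hR⟩ := h g hg
    have h2 := W.add_mem (hW _ hR) (hPW hp)
    rwa [add_assoc, vadd, add_zero] at h2
  obtain ⟨g0, hg0⟩ : ∃ g0, g0 ∉ K := by
    by_contra hcon
    push Not at hcon
    exact hK ((Submodule.eq_top_iff').2 hcon)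
  rw [Submodule.eq_top_iff']
  intro k
  by_cases hk : k ∈ K
  · have h3 : k + g0 ∉ K := fun h4 => hg0 ((K.add_mem_iff_right hk).1 h4)
    have h5 := W.add_mem (h1 _ h3) (h1 _ hg0)
    rwa [add_assoc, vadd, add_zero] at h5
  · exact h1 k hk

/-- there are more than `|V| / 16` vectors with many values -/
theorem card_lt_of_not_lg [Finite V] {B : Fam V} (hB : EFam e B) (hL : Linked B) {x y z : V}
    (hfail : ¬ LG B (Submodule.span (ZMod 2) {x, y, z})) :
    Nat.card V < 16 * Nat.card {v : V // ¬ R2 B v} := by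
  classical
  obtain ⟨K, hK, h⟩ := exists_K hB hL hfail
  obtain ⟨g0, hg0⟩ : ∃ g0, g0 ∉ K := by
    by_contra hcon
    push Not at hcon
    exact hK ((Submodule.eq_top_iff').2 hcon)
  have hx : x ∈ Submodule.span (ZMod 2) {x, y, z} := Submodule.subset_span (by simp)
  have hy : y ∈ Submodule.span (ZMod 2) {x, y, z} := Submodule.subset_span (by simp)
  have hz : z ∈ Submodule.span (ZMod 2) {x, y, z} := Submodule.subset_span (by simp)
  obtain ⟨p0, hp0, hR0⟩ : ∃ p0 ∈ Submodule.span (ZMod 2) {x, y, z}, ¬ R2 B p0 := by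
    by_contra hcon
    push Not at hcon
    exact hfail (lg_of_plane (LinkedOn.of hL _)
      (plane_of_R2_on (LinkedOn.of hL _) hcon hx hy hz))
  let f : (ZMod 2 × ZMod 2 × ZMod 2 × ZMod 2) × {v : V // ¬ R2 B v} → V := fun t =>
    t.1.1 • g0 + (t.2.1 + (t.1.2.1 • x + t.1.2.2.1 • y + t.1.2.2.2 • z))
  have hf1 : ∀ v, v ∉ K → ∃ (a b c : ZMod 2) (w : {v : V // ¬ R2 B v}),
      v = w + (a • x + b • y + c • z) := by
    intro v hv
    obtain ⟨p, hp, hR⟩ := h v hv
    obtain ⟨a, b, c, habc⟩ := Submodule.mem_span_triple.1 hp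
    refine ⟨a, b, c, ⟨v + p, hR⟩, ?_⟩
    rw [habc]
    show v = v + p + p
    rw [add_assoc, vadd, add_zero]
  have hsurj : Function.Surjective f := by
    intro v
    by_cases hv : v ∈ K
    · have h3 : v + g0 ∉ K := fun h4 => hg0 ((K.add_mem_iff_right hv).1 h4)
      obtain ⟨a, b, c, w, hw⟩ := hf1 _ h3
      refine ⟨((1, a, b, c), w), ?_⟩
      show (1 : ZMod 2) • g0 + (w + (a • x + b • y + c • z)) = v
      rw [← hw, one_smul, add_comm v g0, ← add_assoc, vadd, zero_add]
    · obtain ⟨a, b, c, w, hw⟩ := hf1 _ hv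
      refine ⟨((0, a, b, c), w), ?_⟩
      show (0 : ZMod 2) • g0 + (w + (a • x + b • y + c • z)) = v
      rw [← hw, zero_smul, zero_add]
  have hninj : ¬ Function.Injective f := by
    intro hinj
    obtain ⟨a, b, c, w, hw⟩ := hf1 _ hg0
    obtain ⟨a', b', c', habc⟩ := Submodule.mem_span_triple.1 hp0
    have h1 : f ((1, a, b, c), w) = 0 := by
      show (1 : ZMod 2) • g0 + (w + (a • x + b • y + c • z)) = 0
      rw [← hw, one_smul, vadd]
    have h2 : f ((0, a', b', c'), ⟨p0, hR0⟩) = 0 := by
      show (0 : ZMod 2) • g0 + (p0 + (a' • x + b' • y + c' • z)) = 0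
      rw [habc, vadd, zero_smul, zero_add]
    have h3 := hinj (h1.trans h2.symm)
    have h4 : (1 : ZMod 2) = 0 := congrArg (fun t => t.1.1) h3
    exact absurd h4 (by decide)
  have h1 : Nat.card ((ZMod 2 × ZMod 2 × ZMod 2 × ZMod 2) × {v : V // ¬ R2 B v}) =
      16 * Nat.card {v : V // ¬ R2 B v} := by
    rw [Nat.card_prod, Nat.card_prod, Nat.card_prod, Nat.card_prod, Nat.card_zmod]
  have h2 := Nat.card_le_card_of_surjective f hsurj
  rw [h1] at h2
  refine lt_of_le_of_ne h2 fun h3 => hninj ?_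
  have h4 : Nat.card ((ZMod 2 × ZMod 2 × ZMod 2 × ZMod 2) × {v : V // ¬ R2 B v}) = Nat.card V := by
    rw [h1, h3]
  have : Fintype V := Fintype.ofFinite V
  have : Fintype ((ZMod 2 × ZMod 2 × ZMod 2 × ZMod 2) × {v : V // ¬ R2 B v}) := Fintype.ofFinite _
  rw [Nat.card_eq_fintype_card, Nat.card_eq_fintype_card] at h4
  exact ((Fintype.bijective_iff_surjective_and_card f).2 ⟨hsurj, h4⟩).1

theorem R2.mono {A B : Fam V} (hBA : B ≤ A) {p : V} (hp : R2 A p) : R2 B p :=
  fun ω₁ h1 ω₂ h2 ω₃ h3 => hp ω₁ (hBA h1) ω₂ (hBA h2) ω₃ (hBA h3)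

theorem linked_list' [Finite V] {A : Fam V}
    (hS : ∀ B : Fam V, B ≤ A → EFam e B → Linked B → ∀ x y z : V, PlaneAt B x y z)
    (l : List V) : ∀ B : Fam V, B ≤ A → EFam e B → Linked B →
    Linked (l.foldl (fun B u => res B (ann u)) B) := by
  induction l with
  | nil => intro B _ _ h; exact h
  | cons u l ih =>
    intro B hBA hB hL
    exact ih _ ((res_le B _).trans hBA) (hB.res _) (linked_ann hB hL (hS B hBA hB hL) u)

/-- a linked family all of whose linked subfamilies satisfy the plane condition is hereditarily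
linked -/
theorem hered_of_plane [Finite V] {A : Fam V} (hA : EFam e A) (hL : Linked A)
    (hS : ∀ B : Fam V, B ≤ A → EFam e B → Linked B → ∀ x y z : V, PlaneAt B x y z) :
    Hered A := by
  classical
  intro X
  have : Fintype V := Fintype.ofFinite V
  let l : List V := (Finset.univ.filter (fun b : V => ∀ g ∈ X, g b = 0)).toList
  have hl : ∀ b, b ∈ l ↔ ∀ g ∈ X, g b = 0 := by
    intro b
    simp [l]
  have h1 : l.foldl (fun B u => res B (ann u)) A = res A X := by
    ext ω
    rw [mem_list l A hA ω]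
    constructor
    · rintro ⟨h1, h2⟩
      refine ⟨h1, fun y => mem_of_coann fun b hb => ?_⟩
      rw [(hA ω h1).symm, h2 b ((hl b).2 hb)]
      rfl
    · rintro ⟨h1, h2⟩
      refine ⟨h1, fun u hu => ?_⟩
      ext y
      rw [(hA ω h1).symm]
      exact (hl u).1 hu _ (h2 y)
  rw [← h1]
  exact linked_list' hS l A le_rfl hA hL

/-- **Main theorem for families** -/
theorem hered_or_fail [Finite V] {A : Fam V} (hA : EFam e A) (hL : Linked A) (hH : ¬ Hered A) :
    ∃ B : Fam V, B ≤ A ∧ EFam e B ∧ Linked B ∧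
      ∃ x y z : V, ¬ LG B (Submodule.span (ZMod 2) {x, y, z}) := by
  by_contra hcon
  push Not at hcon
  exact hH (hered_of_plane hA hL fun B hBA hB hLB x y z => plane_of_lg (hcon B hBA hB hLB x y z))

end

end Pool.Agent.K3h25.ET
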