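import Pool.Agent.K3h25.ET.Coset

/-! Pairs of vectors with few values. -/

set_option autoImplicit false

namespace Pool.Agent.K3h25.ET

open Pool.Agent.W622.ETG Module Pool.Agent.TH188.ETP

section
variable {V : Type} [AddCommGroup V] [Module (ZMod 2) V] {e : V}

theorem finrank_le_two [Finite V] {A : Fam V} {p : V} (h : R2 A p) :
    finrank (ZMod 2) (vals A p) ≤ 2 := by
  classical
  obtain ⟨f, g, hfg⟩ : ∃ f g : Dl V, vals A p ≤ Submodule.span (ZMod 2) {f, g} := by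
    by_cases h0 : ∃ f ∈ vals A p, f ≠ 0
    · obtain ⟨f, hf, hf0⟩ := h0
      by_cases h1 : ∃ g ∈ vals A p, g ≠ 0 ∧ g ≠ f
      · obtain ⟨g, hg, hg0, hgf⟩ := h1
        refine ⟨f, g, fun k hk => ?_⟩
        have ef : f ∈ Submodule.span (ZMod 2) {f, g} := Submodule.subset_span (by simp)
        have eg : g ∈ Submodule.span (ZMod 2) {f, g} := Submodule.subset_span (by simp)
        rcases h.mem hf hg hk hf0 hg0 hgf with h | h | h | h
        · rw [h]; exact Submodule.zero_mem _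
        · rw [h]; exact ef
        · rw [h]; exact eg
        · rw [h]; exact Submodule.add_mem _ ef eg
      · push Not at h1
        refine ⟨f, f, fun k hk => ?_⟩
        by_cases hk0 : k = 0
        · rw [hk0]; exact Submodule.zero_mem _
        · rw [h1 k hk hk0]; exact Submodule.subset_span (by simp)
    · push Not at h0
      refine ⟨0, 0, fun k hk => ?_⟩
      rw [h0 k hk]; exact Submodule.zero_mem _
  have h1 := Submodule.finrank_mono hfg
  have h4 := finrank_span_finset_le_card (R := ZMod 2) ({f, g} : Finset (Dl V))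
  have h5 : ((({f, g} : Finset (Dl V)) : Set (Dl V))) = {f, g} := by simp
  rw [h5] at h4
  exact h1.trans (h4.trans Finset.card_le_two)

theorem R2_of_finrank [Finite V] {A : Fam V} {p : V} {E : DSub V}
    (hE : finrank (ZMod 2) E ≤ 2) (h : ∀ ω ∈ A, ω p ∈ E) : R2 A p := by
  by_contra hR
  unfold R2 at hR
  push Not at hR
  obtain ⟨ω₁, h1, ω₂, h2, ω₃, h3, n1, n2, n3, n12, n13, n23, n123⟩ := hR
  have hli := indep3 n1 n2 n3 n12 n13 n23 n123
  have hsub : Submodule.span (ZMod 2) (Set.range ![ω₁ p, ω₂ p, ω₃ p]) ≤ E := by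
    rw [Submodule.span_le]
    rintro _ ⟨i, rfl⟩
    fin_cases i
    · exact h ω₁ h1
    · exact h ω₂ h2
    · exact h ω₃ h3
  have hf1 : finrank (ZMod 2) (Submodule.span (ZMod 2) (Set.range ![ω₁ p, ω₂ p, ω₃ p])) = 3 := by
    rw [finrank_span_eq_card hli]
    rfl
  have hf3 := Submodule.finrank_mono hsub
  omega

theorem span_shift (x y z : V) :
    Submodule.span (ZMod 2) {x, y + x, z} = Submodule.span (ZMod 2) {x, y, z} := by
  refine le_antisymm (Submodule.span_le.2 ?_) (Submodule.span_le.2 ?_)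
  · rintro v (rfl | rfl | rfl)
    · exact Submodule.subset_span (by simp)
    · exact Submodule.add_mem _ (Submodule.subset_span (by simp))
        (Submodule.subset_span (by simp))
    · exact Submodule.subset_span (by simp)
  · rintro v (rfl | rfl | rfl)
    · exact Submodule.subset_span (by simp)
    · have h1 : v + x + x ∈ Submodule.span (ZMod 2) {x, v + x, z} :=
        Submodule.add_mem _ (Submodule.subset_span (by simp)) (Submodule.subset_span (by simp))
      rw [add_assoc, vadd, add_zero] at h1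
      exact h1
    · exact Submodule.subset_span (by simp)

theorem span_swap (x y z : V) :
    Submodule.span (ZMod 2) {x, y, z} = Submodule.span (ZMod 2) {x, z, y} := by
  congr 1
  ext v
  simp only [Set.mem_insert_iff, Set.mem_singleton_iff]
  tauto

/-- `p₀` is a vector of a subspace of dimension three, on which `B` is not local-global and all of
whose values lie in the space of values at `p₀`, which has eight elements. If `v` has a value
outside this space, then `v` or `v + p₀` has more than four values. -/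
theorem no_good_pair [Finite V] {B : Fam V} (hL : Linked B) {x y z : V}
    (hfail : ¬ LG B (Submodule.span (ZMod 2) {x, y, z})) {p0 : V}
    (hp0 : p0 ∈ Submodule.span (ZMod 2) {x, y, z}) (hR0 : ¬ R2 B p0) {a₀ b₀ c₀ : Dl V}
    (hE3 : vals B p0 = Submodule.span (ZMod 2) {a₀, b₀, c₀})
    (hPE : ∀ p ∈ Submodule.span (ZMod 2) {x, y, z}, ∀ ω ∈ B, ω p ∈ vals B p0) {v : V}
    (hv : ∃ ω ∈ B, ω v ∉ vals B p0) (Rv : R2 B v) (Rw : R2 B (v + p0)) : False := by
  classical
  set P := Submodule.span (ZMod 2) {x, y, z} with hPdef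
  set E := vals B p0 with hEdef
  have inP0 : ∀ ω ∈ B, ω p0 ∈ E := fun ω hω => ⟨ω, hω, rfl⟩
  have dimE : finrank (ZMod 2) E = 3 := by
    have h1 : ¬ finrank (ZMod 2) E ≤ 2 := fun h => hR0 (R2_of_finrank h inP0)
    have h4 := finrank_span_finset_le_card (R := ZMod 2) ({a₀, b₀, c₀} : Finset (Dl V))
    have h5 : ((({a₀, b₀, c₀} : Finset (Dl V)) : Set (Dl V))) = {a₀, b₀, c₀} := by simp
    rw [h5] at h4
    have h7 : finrank (ZMod 2) E ≤ 3 := by
      rw [hE3]
      exact h4.trans Finset.card_le_three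
    omega
  set Nv := vals B v with hNv
  set Nw := vals B (v + p0) with hNw
  have inNv : ∀ ω ∈ B, ω v ∈ Nv := fun ω hω => ⟨ω, hω, rfl⟩
  have inNw : ∀ ω ∈ B, ω (v + p0) ∈ Nw := fun ω hω => ⟨ω, hω, rfl⟩
  have dv := finrank_le_two Rv
  have dw := finrank_le_two Rw
  obtain ⟨ωv, hωv, hωvE⟩ := hv
  have hE_lt : E < Nv ⊔ Nw := by
    refine lt_of_le_of_ne ?_ ?_
    · rintro _ ⟨ω, hω, rfl⟩
      have h1 : ω v + ω (v + p0) ∈ Nv ⊔ Nw :=
        Submodule.add_mem_sup (inNv ω hω) (inNw ω hω)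
      rw [map_add, ← add_assoc, vadd, zero_add] at h1
      exact h1
    · intro h
      apply hωvE
      rw [h]
      exact (le_sup_left : Nv ≤ Nv ⊔ Nw) (inNv ωv hωv)
  have d4 := Submodule.finrank_lt_finrank_of_lt hE_lt
  have dsum := Submodule.finrank_sup_add_finrank_inf_eq Nv Nw
  have dvE : finrank (ZMod 2) Nv ≤ 2 := dv
  have dwE : finrank (ZMod 2) Nw ≤ 2 := dw
  have dinf : finrank (ZMod 2) (Nv ⊓ Nw : DSub V) = 0 := by omega
  have dsup : finrank (ZMod 2) (Nv ⊔ Nw : DSub V) = 4 := by omega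
  have hinf : Nv ⊓ Nw = ⊥ := Submodule.finrank_eq_zero.1 dinf
  have k0 : ∀ ω ∈ B, ω p0 = 0 → ω v = 0 := by
    intro ω hω h
    have h1 : ω v ∈ Nv ⊓ Nw := by
      refine ⟨inNv ω hω, ?_⟩
      have h2 := inNw ω hω
      rw [map_add, h, add_zero] at h2
      exact h2
    rw [hinf] at h1
    exact (Submodule.mem_bot _).1 h1
  let B' : Fam V :=
    { carrier := {ω | ω ∈ B ∧ ω v ∈ E}
      add_mem' := fun {s t} hs ht => ⟨B.add_mem hs.1 ht.1, by
        rw [LinearMap.add_apply]; exact E.add_mem hs.2 ht.2⟩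
      zero_mem' := ⟨B.zero_mem, by rw [LinearMap.zero_apply]; exact E.zero_mem⟩
      smul_mem' := fun c s hs => ⟨B.smul_mem c hs.1, by
        rw [LinearMap.smul_apply]; exact E.smul_mem c hs.2⟩ }
  have memB' : ∀ ω, ω ∈ B' ↔ ω ∈ B ∧ ω v ∈ E := fun _ => Iff.rfl
  set E' := vals B' p0 with hE'
  have in0 : ∀ ω ∈ B', ω p0 ∈ E' := fun ω hω => ⟨ω, hω, rfl⟩
  have back0 : ∀ ω ∈ B, ω p0 ∈ E' → ω ∈ B' := by
    rintro ω hω ⟨η, hη, h1⟩
    have h1' : η p0 = ω p0 := h1
    obtain ⟨h2, h3⟩ := (memB' η).1 hη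
    have h4 : (ω + η) p0 = 0 := by rw [LinearMap.add_apply, h1', vadd]
    have h5 := k0 _ (B.add_mem hω h2) h4
    rw [LinearMap.add_apply] at h5
    refine (memB' ω).2 ⟨hω, ?_⟩
    rw [Pool.Agent.W622.ETC.add_eq_zero'.1 h5]
    exact h3
  have idx : ∀ ω ∈ B, ∀ η ∈ B, ω v ∉ E → η v ∉ E → ω v + η v ∈ E := by
    intro ω hω η hη h1 h2
    have hlt : E < E ⊔ Submodule.span (ZMod 2) {ω v} := by
      refine lt_of_le_of_ne le_sup_left fun h => h1 ?_
      rw [h]
      exact (le_sup_right : _ ≤ E ⊔ _) (Submodule.mem_span_singleton_self _)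
    have d5 := Submodule.finrank_lt_finrank_of_lt hlt
    have hle : E ⊔ Submodule.span (ZMod 2) {ω v} ≤ Nv ⊔ Nw := by
      refine sup_le hE_lt.le ?_
      rw [Submodule.span_singleton_le_iff_mem]
      exact (le_sup_left : Nv ≤ Nv ⊔ Nw) (inNv ω hω)
    have heq := Submodule.eq_of_le_of_finrank_le hle (by omega)
    have h3 : η v ∈ E ⊔ Submodule.span (ZMod 2) {ω v} := by
      rw [heq]
      exact (le_sup_left : Nv ≤ Nv ⊔ Nw) (inNv η hη)
    obtain ⟨s, hs, t, ht, hst⟩ := Submodule.mem_sup.1 h3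
    obtain ⟨c, rfl⟩ := Submodule.mem_span_singleton.1 ht
    rcases z01 c with rfl | rfl
    · rw [zero_smul, add_zero] at hst
      exact absurd (hst ▸ hs) h2
    · rw [one_smul] at hst
      rw [← hst]
      have : ω v + (s + ω v) = s + (ω v + ω v) := by abel
      rw [this, vadd, add_zero]
      exact hs
  have inv : ∀ a ∈ P, ∀ ω ∈ B', ω (v + a) ∈ E' := by
    intro a ha ω hω
    obtain ⟨h1, h2⟩ := (memB' ω).1 hω
    have h3 : ω (v + a) ∈ E := by
      rw [map_add]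
      exact E.add_mem h2 (hPE a ha ω h1)
    obtain ⟨η, hη, e1, e2⟩ := pairL hL p0 (v + a) (ω (v + a)) h3 ⟨ω, h1, rfl⟩
    have h4 : η v ∈ E := by
      have h5 : η v = η (v + a) + η a := by rw [map_add, add_assoc, vadd, add_zero]
      rw [h5, e2]
      exact E.add_mem h3 (hPE a ha η hη)
    exact ⟨η, (memB' η).2 ⟨hη, h4⟩, e1⟩
  have inE' : ∀ a ∈ P, ∀ ω ∈ B', ω a ∈ E' := by
    intro a ha ω hω
    have h1 := E'.add_mem (inv a ha ω hω) (inv 0 P.zero_mem ω hω)
    rw [← map_add] at h1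
    have : v + a + (v + 0) = a := by
      have : v + a + (v + 0) = a + (v + v) := by abel
      rw [this, vadd, add_zero]
    rwa [this] at h1
  have hE'le : E' ≤ E := by
    rintro _ ⟨ω, hω, rfl⟩
    exact inP0 ω hω.1
  have hE'ne : E' ≠ E := by
    intro h
    apply hωvE
    have h1 := back0 ωv hωv (by rw [h]; exact inP0 ωv hωv)
    exact h1.2
  have dE' : finrank (ZMod 2) E' ≤ 2 := by
    have := Submodule.finrank_lt_finrank_of_lt (lt_of_le_of_ne hE'le hE'ne)
    omega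
  have notB' : ∀ ω ∈ B, ω ∉ B' → ω v ∉ E := fun ω hω h h1 => h ((memB' ω).2 ⟨hω, h1⟩)
  have sumB' : ∀ ω ∈ B, ∀ η ∈ B, ω ∉ B' → η ∉ B' → ω + η ∈ B' := by
    intro ω hω η hη h1 h2
    refine (memB' _).2 ⟨B.add_mem hω hη, ?_⟩
    rw [LinearMap.add_apply]
    exact idx ω hω η hη (notB' ω hω h1) (notB' η hη h2)
  -- types
  have types : ∀ a ∈ P, (∀ ω ∈ B, ω a ∈ E') ∨ (∀ ω ∈ B, ω (a + p0) ∈ E') := by
    intro a ha
    by_cases h : ∀ ω ∈ B, ω a ∈ E'
    · exact Or.inl h
    push Not at h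
    obtain ⟨ω₁, h1, h2⟩ := h
    have h3 : ω₁ ∉ B' := fun h => h2 (inE' a ha ω₁ h)
    right
    intro ω hω
    rw [map_add]
    by_cases h4 : ω ∈ B'
    · exact E'.add_mem (inE' a ha ω h4) (in0 ω h4)
    have h5 : ω a ∉ E' := by
      intro h5
      have h6 := inE' a ha _ (sumB' ω hω ω₁ h1 h4 h3)
      rw [LinearMap.add_apply] at h6
      exact h2 ((E'.add_mem_iff_right h5).1 h6)
    obtain ⟨η, hη, h7⟩ := hPE a ha ω hω
    have h7' : η p0 = ω a := h7
    have h8 : η ∉ B' := fun h => h5 (h7' ▸ in0 η h)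
    have h9 := in0 _ (sumB' η hη ω hω h8 h4)
    rw [LinearMap.add_apply, h7'] at h9
    exact h9
  -- a basis `p₀, a, b` of `P` with `a, b` of type zero
  obtain ⟨a, b, hspan, ta, tb⟩ : ∃ a b, Submodule.span (ZMod 2) {p0, a, b} = P ∧
      (∀ ω ∈ B, ω a ∈ E') ∧ ∀ ω ∈ B, ω b ∈ E' := by
    obtain ⟨t1, t2, t3, ht⟩ := Submodule.mem_span_triple.1 hp0
    have hp00 : p0 ≠ 0 := by
      rintro rfl
      exact hR0 (R2.zero B)
    obtain ⟨u, u', hu⟩ := span_change x y z (t1, t2, t3) (by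
      intro h
      simp only [Prod.mk_eq_zero] at h
      obtain ⟨rfl, rfl, rfl⟩ := h
      apply hp00
      rw [← ht]
      simp)
    have hu' : Submodule.span (ZMod 2) {p0, u, u'} = P := by
      rw [← ht]
      exact hu
    have uP : u ∈ P := by rw [← hu']; exact Submodule.subset_span (by simp)
    have uP' : u' ∈ P := by rw [← hu']; exact Submodule.subset_span (by simp)
    obtain ⟨a, hspa, ta⟩ : ∃ a, Submodule.span (ZMod 2) {p0, a, u'} = P ∧ ∀ ω ∈ B, ω a ∈ E' := by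
      rcases types u uP with h | h
      · exact ⟨u, hu', h⟩
      · exact ⟨u + p0, by rw [span_shift]; exact hu', h⟩
    obtain ⟨b, hspb, tb⟩ : ∃ b, Submodule.span (ZMod 2) {p0, b, a} = P ∧ ∀ ω ∈ B, ω b ∈ E' := by
      rcases types u' uP' with h | h
      · exact ⟨u', by rw [span_swap]; exact hspa, h⟩
      · exact ⟨u' + p0, by rw [span_shift, span_swap]; exact hspa, h⟩
    exact ⟨a, b, by rw [span_swap]; exact hspb, ta, tb⟩
  have aP : a ∈ P := by rw [← hspan]; exact Submodule.subset_span (by simp)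
  have bP : b ∈ P := by rw [← hspan]; exact Submodule.subset_span (by simp)
  have tab : ∀ ω ∈ B, ω (a + b) ∈ E' := fun ω hω => by
    rw [map_add]; exact E'.add_mem (ta ω hω) (tb ω hω)
  -- a failure
  unfold LG at hfail
  push Not at hfail
  obtain ⟨F, hF, hno⟩ := hfail
  obtain ⟨m, hm, m1, m2⟩ := line (LinkedOn.of hL P) aP bP (hF a aP) (hF b bP) (by
    rw [← map_add]
    exact hF _ (P.add_mem aP bP))
  set f := F p0 + m p0 with hf
  have fT : ∀ s ∈ P, F s = m s → In B (p0 + s) f := by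
    intro s hs h
    have h1 := (hF _ (P.add_mem hp0 hs)).add ⟨m, hm, rfl⟩
    have h2 : F (p0 + s) + m (p0 + s) = f := by
      rw [map_add, map_add, h, hf]
      have : F p0 + m s + (m p0 + m s) = F p0 + m p0 + (m s + m s) := by abel
      rw [this, vadd, add_zero]
    rwa [h2] at h1
  have f0 : In B p0 f := by
    have := fT 0 P.zero_mem (by rw [map_zero, map_zero])
    rwa [add_zero] at this
  have fa : In B (p0 + a) f := fT a aP m1.symm
  have fb : In B (p0 + b) f := fT b bP m2.symm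
  have fab : In B (p0 + (a + b)) f := fT _ (P.add_mem aP bP) (by rw [map_add, map_add, m1, m2])
  have hno' : ∀ ω ∈ B, ω p0 = f → ω a = 0 → ω b = 0 → False := by
    intro ω hω h1 h2 h3
    obtain ⟨p, hp, h4⟩ := hno (ω + m) (B.add_mem hω hm)
    apply h4
    rw [← hspan] at hp
    refine LinearMap.eqOn_span (f := ω + m) (g := F) (s := {p0, a, b}) ?_ hp
    rintro v (rfl | rfl | rfl)
    · rw [LinearMap.add_apply, h1, hf, add_assoc, vadd, add_zero]
    · rw [LinearMap.add_apply, h2, m1, zero_add]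
    · rw [LinearMap.add_apply, h3, m2, zero_add]
  -- values in `E'`
  have key5 : ∀ f, f ∈ E' → In B p0 f → In B (p0 + a) f → In B (p0 + b) f →
      In B (p0 + (a + b)) f → ∃ ω ∈ B, ω p0 = f ∧ ω a = 0 ∧ ω b = 0 := by
    intro f hf g0 ga gb gab
    have toB' : ∀ t, (∀ ω ∈ B, ω t ∈ E') → ∀ ω ∈ B, ω (p0 + t) ∈ E' → ω ∈ B' := by
      intro t ht ω hω h
      apply back0 ω hω
      rw [map_add] at h
      exact (E'.add_mem_iff_left (ht ω hω)).1 h
    have toB0 : ∀ ω ∈ B, ω p0 ∈ E' → ω ∈ B' := back0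
    have hsum : p0 + (p0 + a) + (p0 + b) = p0 + (a + b) := by
      have : p0 + (p0 + a) + (p0 + b) = p0 + (a + b) + (p0 + p0) := by abel
      rw [this, vadd, add_zero]
    have hT : ∀ r ∈ ({p0, p0 + a, p0 + b, p0 + (a + b)} : Set V),
        r ∈ P ∧ ∀ ω ∈ B, ω r ∈ E' → ω ∈ B' := by
      rintro r (rfl | rfl | rfl | rfl)
      · exact ⟨hp0, back0⟩
      · exact ⟨P.add_mem hp0 aP, toB' a ta⟩
      · exact ⟨P.add_mem hp0 bP, toB' b tb⟩
      · exact ⟨P.add_mem hp0 (P.add_mem aP bP), toB' _ tab⟩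
    have hpair : PairOn B' {p0, p0 + a, p0 + b, p0 + (a + b)} := by
      rintro r hr r' hr' s ⟨ω, hω, h1⟩ ⟨η, hη, h2⟩
      obtain ⟨ζ, hζ, e1, e2⟩ := pairL hL r r' s ⟨ω, hω.1, h1⟩ ⟨η, hη.1, h2⟩
      refine ⟨ζ, (hT r hr).2 ζ hζ ?_, e1, e2⟩
      rw [e1, ← h1]
      exact inE' r (hT r hr).1 ω hω
    have toIn : ∀ r ∈ ({p0, p0 + a, p0 + b, p0 + (a + b)} : Set V), In B r f → In B' r f := by
      rintro r hr ⟨ω, hω, h1⟩
      exact ⟨ω, (hT r hr).2 ω hω (by rw [h1]; exact hf), h1⟩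
    have r2 : ∀ r ∈ ({p0, p0 + a, p0 + b, p0 + (a + b)} : Set V), R2 B' r := fun r hr =>
      R2_of_finrank dE' (inE' r (hT r hr).1)
    obtain ⟨ω, hω, e1, e2, e3⟩ := plane_three hpair hsum (r2 _ (by simp)) (r2 _ (by simp))
      (r2 _ (by simp)) (toIn _ (by simp) g0) (toIn _ (by simp) ga) (toIn _ (by simp) gb)
      (toIn _ (by simp) gab)
    refine ⟨ω, hω.1, e1, ?_, ?_⟩
    · rw [map_add, e1] at e2
      exact left_eq_add.1 e2.symm
    · rw [map_add, e1] at e3
      exact left_eq_add.1 e3.symm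
  by_cases hfE : f ∈ E'
  · obtain ⟨ω, hω, h1, h2, h3⟩ := key5 f hfE f0 fa fb fab
    exact hno' ω hω h1 h2 h3
  obtain ⟨η₀, hη₀, η0⟩ := id f0
  have hη₀B : η₀ ∉ B' := fun h => hfE (η0 ▸ in0 η₀ h)
  have nk : ∀ ω ∈ B, ω a = 0 → ω b = 0 → ω v ∈ E := by
    intro ω hω h1 h2
    by_contra h3
    have h4 : ω ∉ B' := fun h => h3 h.2
    have h5 := in0 _ (sumB' η₀ hη₀ ω hω hη₀B h4)
    rw [LinearMap.add_apply, η0] at h5
    have aux : ∀ s, ω s = 0 → In B (p0 + s) f → In B (p0 + s) (f + ω p0) := by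
      intro s hs h
      refine h.add ⟨ω, hω, ?_⟩
      rw [map_add, hs, add_zero]
    obtain ⟨ζ, hζ, z1, z2, z3⟩ := key5 (f + ω p0) h5 (f0.add ⟨ω, hω, rfl⟩) (aux a h1 fa)
      (aux b h2 fb) (aux _ (by rw [map_add, h1, h2, add_zero]) fab)
    refine hno' (ζ + ω) (B.add_mem hζ hω) ?_ ?_ ?_
    · rw [LinearMap.add_apply, z1, add_assoc, vadd, add_zero]
    · rw [LinearMap.add_apply, z2, h1, add_zero]
    · rw [LinearMap.add_apply, z3, h2, add_zero]
  set u := η₀ v with hu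
  have huE : u ∉ E := notB' η₀ hη₀ hη₀B
  have vT : ∀ s, In B (p0 + s) f → In B (v + s) u := by
    intro s hs
    obtain ⟨ζ, hζ, e1, e2⟩ := pairL hL p0 (p0 + s) f f0 hs
    have h1 : ζ s = 0 := by
      rw [map_add, e1] at e2
      exact left_eq_add.1 e2.symm
    have h2 : ζ v = u := by
      have h3 := k0 (ζ + η₀) (B.add_mem hζ hη₀) (by rw [LinearMap.add_apply, e1, η0, vadd])
      rw [LinearMap.add_apply] at h3
      exact Pool.Agent.W622.ETC.add_eq_zero'.1 h3
    exact ⟨ζ, hζ, by rw [map_add, h1, h2, add_zero]⟩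
  have hE_lt2 : E < Nv ⊔ E := by
    refine lt_of_le_of_ne le_sup_right fun h => hωvE ?_
    rw [h]
    exact (le_sup_left : Nv ≤ Nv ⊔ E) (inNv ωv hωv)
  have d6 := Submodule.finrank_lt_finrank_of_lt hE_lt2
  have d7 := Submodule.finrank_sup_add_finrank_inf_eq Nv E
  have d8 : finrank (ZMod 2) (Nv ⊓ E : DSub V) ≤ 1 := by omega
  have uniq : ∀ k k', k ∈ Nv → k ∈ E → k' ∈ Nv → k' ∈ E → k ≠ 0 → k' ≠ 0 → k = k' := by
    intro k k' h1 h2 h3 h4 h5 h6
    obtain ⟨w, hw⟩ := finrank_le_one_iff.1 d8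
    obtain ⟨c, hc⟩ := hw ⟨k, h1, h2⟩
    obtain ⟨c', hc'⟩ := hw ⟨k', h3, h4⟩
    rcases z01 c with rfl | rfl
    · rw [zero_smul] at hc
      exact absurd (congrArg Subtype.val hc).symm h5
    rcases z01 c' with rfl | rfl
    · rw [zero_smul] at hc'
      exact absurd (congrArg Subtype.val hc').symm h6
    exact congrArg Subtype.val (hc.symm.trans hc')
  have val : ∀ ω ∈ B, ∀ s, (∀ η ∈ B, η s ∈ E') → ω (v + s) = u →
      ω v = u + ω s ∧ ω s ∈ Nv ∧ ω s ∈ E := by
    intro ω hω s hs h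
    rw [map_add] at h
    have h1 : ω v = u + ω s := by rw [← h, add_assoc, vadd, add_zero]
    refine ⟨h1, ?_, hE'le (hs ω hω)⟩
    have h2 : ω s = ω v + u := by
      rw [h1]
      have : u + ω s + u = ω s + (u + u) := by abel
      rw [this, vadd, add_zero]
    rw [h2]
    exact Nv.add_mem (inNv ω hω) (inNv η₀ hη₀)
  obtain ⟨ω₁, h1, e1, e1'⟩ := pairL hL (v + a) (v + b) u (vT a fa) (vT b fb)
  obtain ⟨ω₂, h2, e2, e2'⟩ := pairL hL (v + b) (v + (a + b)) u (vT b fb) (vT _ fab)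
  obtain ⟨ω₃, h3, e3, e3'⟩ := pairL hL (v + a) (v + (a + b)) u (vT a fa) (vT _ fab)
  obtain ⟨a1, a2, a3⟩ := val ω₁ h1 a ta e1
  obtain ⟨b1, b2, b3⟩ := val ω₂ h2 b tb e2
  obtain ⟨c1, c2, c3⟩ := val ω₃ h3 a ta e3
  have eq1 : ω₁ b = ω₁ a := by
    have := (val ω₁ h1 b tb e1').1
    rw [a1] at this
    exact (add_left_cancel this).symm
  have eq2 : ω₂ a = 0 := by
    have := (val ω₂ h2 (a + b) tab e2').1
    rw [b1] at this
    have h := add_left_cancel this
    rw [map_add] at h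
    exact right_eq_add.1 h
  have eq3 : ω₃ b = 0 := by
    have := (val ω₃ h3 (a + b) tab e3').1
    rw [c1] at this
    have h := add_left_cancel this
    rw [map_add] at h
    exact left_eq_add.1 h
  have n1 : ω₁ a ≠ 0 := by
    intro h
    have := nk ω₁ h1 h (eq1.trans h)
    rw [a1, h, add_zero] at this
    exact huE this
  have n2 : ω₂ b ≠ 0 := by
    intro h
    have := nk ω₂ h2 eq2 h
    rw [b1, h, add_zero] at this
    exact huE this
  have n3 : ω₃ a ≠ 0 := by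
    intro h
    have := nk ω₃ h3 h eq3
    rw [c1, h, add_zero] at this
    exact huE this
  have q1 : ω₂ b = ω₁ a := uniq _ _ b2 b3 a2 a3 n2 n1
  have q2 : ω₃ a = ω₁ a := uniq _ _ c2 c3 a2 a3 n3 n1
  have fin := nk (ω₁ + ω₂ + ω₃) (B.add_mem (B.add_mem h1 h2) h3) (by
    rw [LinearMap.add_apply, LinearMap.add_apply, eq2, q2, add_zero, vadd]) (by
    rw [LinearMap.add_apply, LinearMap.add_apply, eq1, q1, eq3, add_zero, vadd])
  rw [LinearMap.add_apply, LinearMap.add_apply, a1, b1, c1, q1, q2] at fin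
  have e9 : u + ω₁ a + (u + ω₁ a) + (u + ω₁ a) = u + ω₁ a := by
    rw [vadd, zero_add]
  rw [e9] at fin
  exact huE ((E.add_mem_iff_left a3).1 fin)

end

end Pool.Agent.K3h25.ET
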